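import Mathlib

set_option autoImplicit false

namespace Pool.Agent.H668Z.SC

/-- A graph metric: a metric with values in the naturals in which any two points are joined by a
geodesic with unit steps. -/
structure GS (V : Type*) where
  d : V → V → ℕ
  d_self : ∀ x, d x x = 0
  eq_of_d : ∀ x y, d x y = 0 → x = y
  symm : ∀ x y, d x y = d y x
  tri : ∀ x y z, d x z ≤ d x y + d y z
  step : ∀ x y n, d x y = n + 1 → ∃ z, d x z = 1 ∧ d z y = n

namespace GS

variable {V : Type*} (X : GS V)

/-- `z` lies on a geodesic from `x` to `y` -/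
def Btw (x z y : V) : Prop := X.d x z + X.d z y = X.d x y

/-- slim triangles, for intervals -/
def Slim (δ : ℕ) : Prop :=
  ∀ x y w z, X.Btw x z y → ∃ p, (X.Btw x p w ∨ X.Btw w p y) ∧ X.d z p ≤ δ

/-- the four point condition -/
def Four (h : ℕ) : Prop :=
  ∀ x y z w, X.d x y + X.d z w ≤ X.d x z + X.d y w + h ∨
    X.d x y + X.d z w ≤ X.d x w + X.d y z + h

variable {X}

lemma d_pos {x y : V} (h : x ≠ y) : 0 < X.d x y :=
  Nat.pos_of_ne_zero (fun h0 => h (X.eq_of_d x y h0))

lemma Btw.symm {x z y : V} (h : X.Btw x z y) : X.Btw y z x := by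
  unfold Btw at *
  rw [X.symm y z, X.symm z x, X.symm y x]; omega

lemma btw_left (x y : V) : X.Btw x x y := by
  unfold Btw; rw [X.d_self]; omega

lemma btw_right (x y : V) : X.Btw x y y := by
  unfold Btw; rw [X.d_self]; omega

lemma exists_btw (x y : V) (k : ℕ) (hk : k ≤ X.d x y) : ∃ z, X.d x z = k ∧ X.Btw x z y := by
  induction k with
  | zero => exact ⟨x, X.d_self x, btw_left x y⟩
  | succ k ih =>
    obtain ⟨z, hz1, hz2⟩ := ih (by omega)
    unfold Btw at hz2
    obtain ⟨w, hw1, hw2⟩ := X.step z y (X.d z y - 1) (by omega)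
    have h1 := X.tri x z w
    have h2 := X.tri x w y
    refine ⟨w, by omega, ?_⟩
    unfold Btw; omega

lemma Slim.four {δ : ℕ} (hs : X.Slim δ) : X.Four (6 * δ + 1) := by
  intro x y z w
  have t1 := X.tri x w y
  have t2 := X.tri w x y
  have t3 := X.tri x y w
  have t4 := X.tri w y x
  have s1 := X.symm x w
  have s2 := X.symm w y
  have s3 := X.symm x y
  obtain ⟨p, hp1, hp2⟩ := exists_btw (X := X) x y ((X.d x y + X.d x w - X.d y w) / 2) (by omega)
  have hw : 2 * X.d w p + X.d x y ≤ X.d x w + X.d y w + 4 * δ + 1 := by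
    obtain ⟨q, hq, hq2⟩ := hs x y w p hp2
    unfold Btw at hp2 hq
    have a1 := X.tri w q p
    have a2 := X.tri x q p
    have a3 := X.tri p q y
    have a4 := X.symm p q
    have a5 := X.symm q w
    rcases hq with hq | hq <;> omega
  obtain ⟨q, hq, hq2⟩ := hs x y z p hp2
  unfold Btw at hq
  have a1 := X.tri w p q
  have a2 := X.tri x q w
  have a3 := X.tri z q w
  have a4 := X.tri y q w
  have a5 := X.symm q w
  have a6 := X.symm q z
  have a7 := X.symm q y
  have a8 := X.symm z y
  rcases hq with hq | hq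
  · left; omega
  · right; omega

lemma Four.mono {h h' : ℕ} (hf : X.Four h) (hh : h ≤ h') : X.Four h' := by
  intro x y z w
  rcases hf x y z w with h1 | h1
  · left; omega
  · right; omega

lemma Slim.mono {h h' : ℕ} (hf : X.Slim h) (hh : h ≤ h') : X.Slim h' := by
  intro x y w z hz
  obtain ⟨p, hp, hp2⟩ := hf x y w z hz
  exact ⟨p, hp, hp2.trans hh⟩

/-- tripod lemma -/
lemma Four.tripod {h : ℕ} (hf : X.Four h) {x y w p q : V} (hp : X.Btw x p y) (hq : X.Btw x q w)
    (he : X.d x p = X.d x q) (ht : 2 * X.d x p + X.d y w ≤ X.d x y + X.d x w) :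
    X.d p q ≤ 2 * h := by
  unfold Btw at hp hq
  have h1 := hf p q y x
  have h2 := hf y q w x
  have s1 := X.symm p x
  have s2 := X.symm q x
  have s3 := X.symm y x
  have s4 := X.symm w x
  have s5 := X.symm q y
  have s6 := X.symm q w
  omega

lemma Four.slim {h : ℕ} (hf : X.Four h) : X.Slim (2 * h) := by
  intro x y w z hz
  have hz' := hz
  unfold Btw at hz'
  have t1 := X.tri x y w
  have t2 := X.tri y x w
  have t3 := X.tri x w y
  have s1 := X.symm x y
  have s2 := X.symm z y
  have s3 := X.symm y w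
  have s4 := X.symm x w
  by_cases h1 : 2 * X.d x z + X.d y w ≤ X.d x y + X.d x w
  · obtain ⟨q, hq1, hq2⟩ := exists_btw (X := X) x w (X.d x z) (by omega)
    exact ⟨q, Or.inl hq2, hf.tripod hz hq2 hq1.symm h1⟩
  · obtain ⟨q, hq1, hq2⟩ := exists_btw (X := X) y w (X.d y z) (by omega)
    exact ⟨q, Or.inr hq2.symm, hf.tripod hz.symm hq2 hq1.symm (by omega)⟩

variable (X)

/-- `Av c n u w`: a chain of at most `n` unit steps from `u` to `w` avoiding `c` -/
inductive Av (c : V) : ℕ → V → V → Prop
  | refl (n : ℕ) (u : V) : u ≠ c → Av c n u u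
  | step (n : ℕ) (u z w : V) : u ≠ c → X.d u z ≤ 1 → Av c n z w → Av c (n + 1) u w

/-- first vertices of geodesics from `c` to `a` -/
def Pr (c a u : V) : Prop := X.d c u = 1 ∧ X.d u a + 1 = X.d c a

/-- the angle at `c` between `a` and `b` is at most `n` -/
def Dle (c a b : V) (n : ℕ) : Prop := ∀ u w, X.Pr c a u → X.Pr c b w → X.Av c n u w

variable {X}

lemma Av.ne_left {c u w : V} {n : ℕ} (h : X.Av c n u w) : u ≠ c := by
  cases h <;> assumption

lemma Av.ne_right {c u w : V} {n : ℕ} (h : X.Av c n u w) : w ≠ c := by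
  induction h with
  | refl n u h => exact h
  | step n u z w _ _ _ ih => exact ih

lemma Av.mono {c u w : V} {n m : ℕ} (h : X.Av c n u w) (hm : n ≤ m) : X.Av c m u w := by
  induction h generalizing m with
  | refl n u h => exact Av.refl _ _ h
  | step n u z w h1 h2 _ ih =>
    obtain ⟨m, rfl⟩ : ∃ m', m = m' + 1 := ⟨m - 1, by omega⟩
    exact Av.step _ _ _ _ h1 h2 (ih (by omega))

lemma Av.trans {c u v w : V} {n m : ℕ} (h : X.Av c n u v) (h' : X.Av c m v w) :
    X.Av c (n + m) u w := by
  induction h with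
  | refl n u h => exact h'.mono (by omega)
  | step n u z v h1 h2 _ ih =>
    rw [show n + 1 + m = n + m + 1 by omega]
    exact Av.step _ _ _ _ h1 h2 (ih h')

lemma Av.single {c u w : V} (hu : u ≠ c) (hw : w ≠ c) (h : X.d u w ≤ 1) : X.Av c 1 u w :=
  Av.step 0 u w w hu h (Av.refl 0 w hw)

lemma Av.symm {c u w : V} {n : ℕ} (h : X.Av c n u w) : X.Av c n w u := by
  induction h with
  | refl n u h => exact Av.refl _ _ h
  | step n u z w h1 h2 h3 ih =>
    exact ih.trans (Av.single h3.ne_left h1 (by rw [X.symm]; exact h2))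

lemma Av.d_le {c u w : V} {n : ℕ} (h : X.Av c n u w) : X.d u w ≤ n := by
  induction h with
  | refl n u h => rw [X.d_self]; omega
  | step n u z w h1 h2 _ ih => have := X.tri u z w; omega

lemma av_of_not_btw {c u w : V} (h : ¬ X.Btw u c w) : X.Av c (X.d u w) u w := by
  generalize hn : X.d u w = n
  induction n generalizing u with
  | zero =>
    have := X.eq_of_d _ _ hn
    subst this
    refine Av.refl _ _ ?_
    rintro rfl
    exact h (btw_left _ _)
  | succ n ih =>
    obtain ⟨z, hz1, hz2⟩ := X.step u w n hn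
    refine Av.step _ _ z _ ?_ hz1.le (ih ?_ hz2)
    · rintro rfl
      exact h (btw_left _ _)
    · intro hb
      apply h
      unfold Btw at *
      have := X.tri u z c
      have := X.tri u c w
      omega

lemma exists_pr {c a : V} (h : a ≠ c) : ∃ u, X.Pr c a u := by
  have h1 : 0 < X.d c a := d_pos h.symm
  obtain ⟨z, hz1, hz2⟩ := X.step c a (X.d c a - 1) (by omega)
  exact ⟨z, hz1, by omega⟩

lemma Dle.mono {c a b : V} {n m : ℕ} (h : X.Dle c a b n) (hm : n ≤ m) : X.Dle c a b m :=
  fun u w hu hw => (h u w hu hw).mono hm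

lemma Dle.symm {c a b : V} {n : ℕ} (h : X.Dle c a b n) : X.Dle c b a n :=
  fun u w hu hw => (h w u hw hu).symm

lemma Dle.trans {c a z b : V} {n m : ℕ} (h : X.Dle c a z n) (hz : z ≠ c) (h' : X.Dle c z b m) :
    X.Dle c a b (n + m) := by
  intro u w hu hw
  obtain ⟨v, hv⟩ := exists_pr (X := X) hz
  exact (h u v hu hv).trans (h' v w hv hw)

/-- a point at bounded distance from `c` on a geodesic to `a` through `u` -/
lemma exists_near {c a u : V} (hu : X.Pr c a u) (s : ℕ) (hs : 1 ≤ s) :
    ∃ a', X.Btw c a' a ∧ X.d c a' = min s (X.d c a) ∧ X.Av c s u a' := by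
  obtain ⟨h1, h2⟩ := hu
  obtain ⟨a', ha1, ha2⟩ := exists_btw (X := X) u a (min s (X.d c a) - 1) (by omega)
  unfold Btw at ha2
  have t1 := X.tri c u a'
  have t2 := X.tri c a' a
  have s1 := X.symm u c
  refine ⟨a', by unfold Btw; omega, by omega, ?_⟩
  refine (av_of_not_btw (X := X) (c := c) (u := u) (w := a') ?_).mono (by omega)
  unfold Btw
  omega

/-- Bounded geodesic image: if `c` is on no geodesic from `a` to `b`, the angle is small. -/
theorem Four.dle {h : ℕ} (hf : X.Four h) {c a b : V} (hc : ¬ X.Btw a c b) :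
    X.Dle c a b (16 * h + 4) := by
  intro u w hu hw
  obtain ⟨a', ha1, ha2, ha3⟩ := exists_near hu (2 * h + 1) (by omega)
  obtain ⟨b', hb1, hb2, hb3⟩ := exists_near hw (2 * h + 1) (by omega)
  have hu' := hu
  have hw' := hw
  obtain ⟨hu1, hu2⟩ := hu'
  obtain ⟨hw1, hw2⟩ := hw'
  have t1 := X.tri a c b
  have t2 := X.tri c a b
  have t3 := X.tri c b a
  have s1 := X.symm a c
  have s2 := X.symm b c
  have s3 := X.symm a b
  have ha1' := ha1
  have hb1' := hb1
  unfold Btw at ha1' hb1'
  have s4 := X.symm a' c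
  have s5 := X.symm b' c
  have s6 := X.symm a' a
  have s7 := X.symm b' b
  by_cases hG : 2 * (2 * h + 1) + X.d a b ≤ X.d c a + X.d c b
  · have h1 : X.d a' b' ≤ 2 * h := hf.tripod ha1 hb1 (by omega) (by omega)
    have h2 : X.Av c (2 * h) a' b' :=
      (av_of_not_btw (by unfold Btw; omega)).mono h1
    exact ((ha3.trans h2).trans hb3.symm).mono (by omega)
  · obtain ⟨p, hp1, hp2⟩ := exists_btw (X := X) a b (X.d a a') (by omega)
    have hp2' := hp2
    unfold Btw at hp2'
    have s8 := X.symm p b
    obtain ⟨q, hq1, hq2⟩ := exists_btw (X := X) b p (X.d b b') (by omega)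
    have hq2' := hq2
    unfold Btw at hq2'
    have s9 := X.symm q p
    have s10 := X.symm q b
    have t4 := X.tri a p q
    have t5 := X.tri a q b
    have hq3 : X.Btw b q a := by
      have := X.symm q a
      unfold Btw; omega
    have h1 : X.d a' p ≤ 2 * h := hf.tripod ha1.symm hp2 (by omega) (by omega)
    have h2 : X.d b' q ≤ 2 * h := hf.tripod hb1.symm hq3 (by omega) (by omega)
    have h3 : X.Av c (2 * h) a' p := by
      refine (av_of_not_btw ?_).mono h1
      have := X.tri a' a p
      unfold Btw; omega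
    have h4 : X.Av c (2 * h) b' q := by
      refine (av_of_not_btw ?_).mono h2
      have := X.tri b' b q
      unfold Btw; omega
    have h5 : X.Av c (8 * h + 2) p q := by
      refine (av_of_not_btw ?_).mono ?_
      · intro hb
        apply hc
        have := X.tri a p c
        have := X.tri c q b
        unfold Btw at *; omega
      · have := X.tri p a' q
        have := X.tri a' c q
        have := X.tri c b' q
        have := X.symm p a'
        omega
    exact ((((ha3.trans h3).trans h5).trans h4.symm).trans hb3.symm).mono (by omega)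

end GS

end Pool.Agent.H668Z.SC
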