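import Mathlib

set_option autoImplicit false

/-!
# Interfaces: the small cancellation box and the embedding theorem
-/

namespace Pool.Agent.H668Z.SC

/-- Nontrivial torsion elements survive and their centralisers lift along `π`. -/
def Persist {Q R : Type} [Group Q] [Group R] (π : Q →* R) : Prop :=
  ∀ u : Q, u ≠ 1 → IsOfFinOrder u →
    π u ≠ 1 ∧ ∀ t : Q, Commute (π t) (π u) → ∃ s : Q, Commute s u ∧ π s = π t

/-- A class of groups which contains the free group, in which centralisers of torsion elements are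
finite cyclic and in which one may add one relator, injectively on a given finite set, so that
`z` falls in the subgroup generated by `x, y` or becomes a torsion element. -/
def S_box : Prop := ∃ Cl : (Q : Type) → [Group Q] → Prop,
  Cl (FreeGroup ℕ) ∧
  (∀ (Q : Type) [Group Q], Cl Q → ∀ u : Q, u ≠ 1 → IsOfFinOrder u →
    ∃ g : Q, IsOfFinOrder g ∧ ∀ a : Q, Commute a u → a ∈ Subgroup.zpowers g) ∧
  ∀ (Q : Type) [Group Q], Cl Q → ∀ F : Set Q, F.Finite → (1 : Q) ∉ F →
    ∀ (c : Bool) (x y z : Q), ∃ r : Q,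
      (∀ ρ : Q →* Q, ρ x = x → ρ y = y → ρ z = z → ρ r = r) ∧
      ∃ (R : Type) (_ : Group R) (π : Q →* R), Function.Surjective π ∧
        π.ker = Subgroup.normalClosure {r} ∧ Cl R ∧ (∀ f ∈ F, π f ≠ 1) ∧ Persist π ∧
        (c = true → Commute x y ∨ π z ∈ Subgroup.closure {π x, π y}) ∧
        (c = false → IsOfFinOrder (π z))

/-- Every subgroup of `A` is `A` itself, generated by two elements, or lies in a finite cyclic
group. -/
def Mon {G : Type} [Group G] (A : Subgroup G) : Prop :=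
  ∀ H : Subgroup G, H ≤ A → (H = A ∧ ∃ x y : G, Subgroup.closure {x, y} = H) ∨
    ∃ g : G, IsOfFinOrder g ∧ H ≤ Subgroup.zpowers g

/-- Every countably infinite group embeds in a product of two monsters. -/
def S_embed : Prop := ∀ (E : Type) [Group E] [Countable E] [Infinite E],
  ∃ (G : Type) (_ : Group G) (ε : E →* G) (A B : Subgroup G), Function.Injective ε ∧
    (∀ g : G, ∃ a ∈ A, ∃ b ∈ B, a * b = g) ∧ Mon A ∧ Mon B

/-- finite special rank -/
def S_appRank : Prop :=
  ∃ (G : Type) (_ : Group G) (A B : Subgroup G),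
    (∃ r : ℕ, ∀ H : Subgroup G, H ≤ A → H.FG →
      ∃ s : Finset G, s.card ≤ r ∧ Subgroup.closure (s : Set G) = H) ∧
    (∃ r : ℕ, ∀ H : Subgroup G, H ≤ B → H.FG →
      ∃ s : Finset G, s.card ≤ r ∧ Subgroup.closure (s : Set G) = H) ∧
    (∀ g : G, ∃ a ∈ A, ∃ b ∈ B, a * b = g) ∧
    ¬ (∃ r : ℕ, ∀ H : Subgroup G, H.FG →
      ∃ s : Finset G, s.card ≤ r ∧ Subgroup.closure (s : Set G) = H)

/-- minimum condition -/
def S_appMin : Prop :=
  ¬ (∀ (G : Type) [Group G] (A B : Subgroup G),
    (∀ g : G, ∃ a ∈ A, ∃ b ∈ B, a * b = g) →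
    WellFoundedLT (Subgroup ↥A) →
    WellFoundedLT (Subgroup ↥B) →
    WellFoundedLT (Subgroup G))

/-- maximum condition -/
def S_appMax : Prop :=
  ¬ (∀ (G : Type) [Group G] (A B : Subgroup G),
    (∀ g : G, ∃ a ∈ A, ∃ b ∈ B, a * b = g) →
    WellFoundedGT (Subgroup ↥A) →
    WellFoundedGT (Subgroup ↥B) →
    WellFoundedGT (Subgroup G))

end Pool.Agent.H668Z.SC
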