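import Pool.Agent.H668Z.SC.Windmill

set_option autoImplicit false
set_option linter.unusedSectionVars false
set_option linter.unusedVariables false

namespace Pool.Agent.H668Z.SC

open GS

section ofRel

variable {V : Type*} (r : V → V → Prop)

/-- `Reach r n x y`: a chain of at most `n` steps of `r` from `x` to `y` -/
inductive Reach : ℕ → V → V → Prop
  | refl (n : ℕ) (x : V) : Reach n x x
  | step (n : ℕ) (x z y : V) : r x z → Reach n z y → Reach (n + 1) x y

variable {r}

lemma Reach.mono {n m : ℕ} {x y : V} (h : Reach r n x y) (hm : n ≤ m) : Reach r m x y := by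
  induction h generalizing m with
  | refl n u => exact Reach.refl _ _
  | step n u z w h1 _ ih =>
    obtain ⟨m, rfl⟩ : ∃ m', m = m' + 1 := ⟨m - 1, by omega⟩
    exact Reach.step _ _ _ _ h1 (ih (by omega))

lemma Reach.trans {n m : ℕ} {x y z : V} (h : Reach r n x y) (h' : Reach r m y z) :
    Reach r (n + m) x z := by
  induction h with
  | refl n u => exact h'.mono (by omega)
  | step n u z v h1 _ ih =>
    rw [show n + 1 + m = n + m + 1 by omega]
    exact Reach.step _ _ _ _ h1 (ih h')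

lemma Reach.single {x y : V} (h : r x y) : Reach r 1 x y :=
  Reach.step 0 x y y h (Reach.refl 0 y)

lemma Reach.symm (hs : ∀ a b, r a b → r b a) {n : ℕ} {x y : V} (h : Reach r n x y) :
    Reach r n y x := by
  induction h with
  | refl n u => exact Reach.refl _ _
  | step n u z w h1 _ ih => exact ih.trans (Reach.single (hs _ _ h1))

lemma Reach.eq_of_zero {x y : V} (h : Reach r 0 x y) : x = y := by
  cases h; rfl

variable (r)

/-- the graph metric of a symmetric connected relation -/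
noncomputable def ofRel (hs : ∀ a b, r a b → r b a) (hc : ∀ x y, ∃ n, Reach r n x y) : GS V where
  d x y := sInf {n | Reach r n x y}
  d_self x := Nat.eq_zero_of_le_zero (Nat.sInf_le (Reach.refl 0 x))
  eq_of_d x y h := by
    have h1 : Reach r (sInf {n | Reach r n x y}) x y := Nat.sInf_mem (hc x y)
    rw [h] at h1
    exact h1.eq_of_zero
  symm x y := by
    congr 1
    ext n
    exact ⟨Reach.symm hs, Reach.symm hs⟩
  tri x y z := Nat.sInf_le (Reach.trans (Nat.sInf_mem (hc x y)) (Nat.sInf_mem (hc y z)))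
  step x y n h := by
    have h1 : Reach r (sInf {n | Reach r n x y}) x y := Nat.sInf_mem (hc x y)
    rw [h] at h1
    cases h1 with
    | refl =>
      have : sInf {n | Reach r n x x} ≤ 0 := Nat.sInf_le (Reach.refl 0 x)
      omega
    | step _ _ z _ h2 h3 =>
      have a1 : sInf {n | Reach r n x z} ≤ 1 := Nat.sInf_le (Reach.single h2)
      have a2 : sInf {n | Reach r n z y} ≤ n := Nat.sInf_le h3
      have a3 : sInf {n | Reach r n x y} ≤ sInf {n | Reach r n x z} + sInf {n | Reach r n z y} :=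
        Nat.sInf_le (Reach.trans (Nat.sInf_mem (hc x z)) (Nat.sInf_mem (hc z y)))
      exact ⟨z, by omega, by omega⟩

variable {r}

lemma ofRel_le_iff (hs : ∀ a b, r a b → r b a) (hc : ∀ x y, ∃ n, Reach r n x y) (x y : V)
    (n : ℕ) : (ofRel r hs hc).d x y ≤ n ↔ Reach r n x y :=
  ⟨fun h => Reach.mono (Nat.sInf_mem (hc x y)) h, fun h => Nat.sInf_le h⟩

lemma ofRel_le_one (hs : ∀ a b, r a b → r b a) (hc : ∀ x y, ∃ n, Reach r n x y) (x y : V) :
    (ofRel r hs hc).d x y ≤ 1 ↔ x = y ∨ r x y := by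
  rw [ofRel_le_iff]
  constructor
  · intro h
    cases h with
    | refl => exact Or.inl rfl
    | step _ _ z _ h2 h3 => right; rw [← h3.eq_of_zero]; exact h2
  · rintro (rfl | h)
    · exact Reach.refl _ _
    · exact Reach.single h

end ofRel

/-- A map which does not increase distances of adjacent points does not increase distances. -/
lemma GS.lip_of_adj {V W : Type*} (X : GS V) (Y : GS W) (f : V → W) (k : ℕ)
    (h : ∀ a b, X.d a b = 1 → Y.d (f a) (f b) ≤ k) (a b : V) :
    Y.d (f a) (f b) ≤ k * X.d a b := by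
  generalize hn : X.d a b = n
  induction n generalizing a with
  | zero => rw [X.eq_of_d _ _ hn, Y.d_self]; omega
  | succ n ih =>
    obtain ⟨z, h1, h2⟩ := X.step a b n hn
    have := Y.tri (f a) (f z) (f b)
    have := h a z h1
    have := ih z h2
    rw [Nat.mul_succ]; omega

/-- fine graphs: finitely many edges at a bounded angle from a given edge -/
def GS.Fine {V : Type*} (X : GS V) : Prop :=
  ∀ c u n, X.d c u = 1 → {w | X.d c w = 1 ∧ X.Av c n u w}.Finite

/-- A configuration: a fine hyperbolic graph with a cofinite action in which a nontrivial element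
fixes at most one vertex, an edge `p q` and a third vertex `o`. -/
structure Cfg (G : Type) {V : Type} [Group G] [MulAction G V] (X : GS V) (p q o : V) : Prop where
  iso : Iso X G
  hyp : ∃ δ, X.Slim δ
  fine : X.Fine
  cof : ∃ S : Set (V × V), S.Finite ∧ ∀ a b, X.d a b = 1 → ∃ g : G, (g • a, g • b) ∈ S
  pair : ∀ (g : G) (a b : V), a ≠ b → g • a = a → g • b = b → g = 1
  adj : X.d p q = 1
  indP : ∀ g : G, X.d p (g • p) ≠ 1
  indQ : ∀ g : G, X.d q (g • q) ≠ 1
  pq : ∀ g : G, g • p ≠ q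
  po : ∀ g : G, g • p ≠ o
  qo : ∀ g : G, g • q ≠ o

lemma Cfg.swap {G V : Type} [Group G] [MulAction G V] {X : GS V} {p q o : V}
    (h : Cfg G X p q o) : Cfg G X q p o :=
  ⟨h.iso, h.hyp, h.fine, h.cof, h.pair, by rw [X.symm]; exact h.adj, h.indQ, h.indP,
    fun g hg => h.pq g⁻¹ (by rw [← hg, inv_smul_smul]), h.qo, h.po⟩

/-- guessing geodesics -/
def S_bow : Prop := ∀ (V : Type) (X : GS V) (Λ : V → V → Set V) (h : ℕ),
  (∀ x y w, ∀ z ∈ Λ x y, ∃ z', (z' ∈ Λ x w ∨ z' ∈ Λ w y) ∧ X.d z z' ≤ h) →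
  (∀ x y, X.d x y ≤ 1 → ∀ z ∈ Λ x y, X.d z x ≤ h) →
  (∀ x y, ∃ (N : ℕ) (ζ : ℕ → V), ζ 0 = x ∧ ζ N = y ∧ (∀ s, s ≤ N → ζ s ∈ Λ x y) ∧
    ∀ s, s < N → X.d (ζ s) (ζ (s + 1)) ≤ 1) →
  ∃ δ, X.Slim δ

/-- adding an orbit of edges -/
def S_add : Prop := ∀ (G V : Type) [Group G] [MulAction G V] (X : GS V) (p q o : V),
  Cfg G X p q o → ∀ g : G, ∃ X' : GS V, Cfg G X' p q o ∧ X'.d p (g • q) = 1

/-- the free product with an infinite cyclic group -/
abbrev GZ (G : Type) [Group G] : Type := Monoid.Coprod G (Multiplicative ℤ)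

/-- the new generator -/
def tt (G : Type) [Group G] : GZ G := Monoid.Coprod.inr (Multiplicative.ofAdd (1 : ℤ))

/-- gluing copies of the graph along the edges `(p, g q)` and `t (p, q)` -/
def S_glue : Prop := ∀ (G V : Type) [Group G] [MulAction G V] (X : GS V) (p q o : V),
  Cfg G X p q o → ∀ g : G, X.d p (g • q) = 1 →
  (¬ ∃ a b : G, a • p = p ∧ b • q = q ∧ g = a * b) →
  ∃ (W : Type) (_ : MulAction (GZ G) W) (Y : GS W) (ι : V → W),
    Cfg (GZ G) Y (ι p) (ι q) (ι o) ∧
    (∀ (h : G) (v : V), ι (h • v) = (Monoid.Coprod.inl h : GZ G) • ι v) ∧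
    (∀ γ : GZ G, γ • ι p = ι p ↔ γ ∈ Subgroup.closure
      ({x | ∃ a : G, a • p = p ∧ x = Monoid.Coprod.inl a} ∪ {tt G})) ∧
    (∀ γ : GZ G, γ • ι q = ι q ↔ γ ∈ Subgroup.closure
      ({x | ∃ b : G, b • q = q ∧ x = Monoid.Coprod.inl b} ∪ {(tt G)⁻¹ * Monoid.Coprod.inl g}))

/-- Dehn filling at the vertices of the orbit of `p` -/
def S_fill : Prop := ∀ (G V : Type) [Group G] [MulAction G V] (X : GS V) (p q o : V),
  Cfg G X p q o → ∃ F : Set G, F.Finite ∧ (∀ f ∈ F, f ≠ 1 ∧ f • p = p) ∧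
    ∀ K : Subgroup G, (∀ k ∈ K, k • p = p) → (∀ a : G, a • p = p → ∀ k ∈ K, a * k * a⁻¹ ∈ K) →
      (∀ f ∈ F, f ∉ K) →
      ∃ (G' W : Type) (_ : Group G') (_ : MulAction G' W) (Y : GS W) (φ : G →* G') (π : V → W),
        Cfg G' Y (π p) (π q) (π o) ∧ Function.Surjective φ ∧
        (∀ (g : G) (v : V), π (g • v) = φ g • π v) ∧
        (∀ (γ : G') (v : V), γ • π v = π v → ∃ g : G, φ g = γ ∧ g • v = v) ∧
        (∀ g : G, g • p = p → (φ g = 1 ↔ g ∈ K)) ∧
        (∀ g : G, g • q = q → φ g = 1 → g = 1) ∧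
        (∀ g : G, g • o = o → φ g = 1 → g = 1)

/-- the initial configuration -/
def S_base : Prop := ∀ (E : Type) [Group E], ∃ (V : Type) (_ : MulAction E V) (X : GS V)
  (p q o : V), Cfg E X p q o ∧ (∀ e : E, e • o = o) ∧ (∀ e : E, e • p = p → e = 1) ∧
    (∀ e : E, e • q = q → e = 1)

/-- a configuration with an infinite stabiliser of `o` is not yet a product -/
def S_notAB : Prop := ∀ (G V : Type) [Group G] [MulAction G V] (X : GS V) (p q o : V),
  Cfg G X p q o → {g : G | g • o = o}.Infinite →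
  ∃ g : G, ¬ ∃ a b : G, a • p = p ∧ b • q = q ∧ g = a * b

/-- kernel of the map of a free group to `G * Z` which sends one more generator to `t^± g` -/
def S_ker : Prop := ∀ (G : Type) [Group G] (n : ℕ) (R : Set (FreeGroup ℕ))
  (a : ℕ → G) (a' : ℕ → GZ G) (g : G),
  (∀ r ∈ R, r ∈ Subgroup.closure (FreeGroup.of '' {j | j < n})) →
  (∀ j, n ≤ j → a j = 1) →
  (FreeGroup.lift a).ker = Subgroup.normalClosure (R ∪ FreeGroup.of '' {j | n ≤ j}) →
  (∀ j, j ≠ n → a' j = Monoid.Coprod.inl (a j)) →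
  (a' n = tt G ∨ a' n = (tt G)⁻¹ * Monoid.Coprod.inl g) →
  (FreeGroup.lift a').ker = Subgroup.normalClosure (R ∪ FreeGroup.of '' {j | n + 1 ≤ j})

end Pool.Agent.H668Z.SC
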