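import Pool.Agent.H668Z.SC.Lift

set_option autoImplicit false
set_option linter.unusedSectionVars false
set_option linter.unusedVariables false

namespace Pool.Agent.H668Z.SC

open GS

section quot

variable {V G : Type} [Group G] [MulAction G V] (N : Subgroup G)

/-- orbits of `N` -/
def orbS (V : Type) [MulAction G V] : Setoid V where
  r x y := ∃ n ∈ N, n • x = y
  iseqv := ⟨fun x => ⟨1, one_mem _, one_smul _ _⟩,
    fun ⟨n, hn, h⟩ => ⟨n⁻¹, inv_mem hn, by rw [← h, inv_smul_smul]⟩,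
    fun ⟨n, hn, h⟩ ⟨m, hm, h'⟩ => ⟨m * n, mul_mem hm hn, by rw [mul_smul, h, h']⟩⟩

/-- the orbit space -/
def QV (V : Type) [MulAction G V] : Type := Quotient (orbS N V)

def qmk (x : V) : QV N V := Quotient.mk (orbS N V) x

variable {N}

lemma qmk_eq {x y : V} : qmk N x = qmk N y ↔ ∃ n ∈ N, n • x = y := Quotient.eq

lemma qmk_surj (a : QV N V) : ∃ x, qmk N x = a := Quotient.exists_rep a

lemma qmk_smul {n : G} (hn : n ∈ N) (x : V) : qmk N (n • x) = qmk N x :=
  (qmk_eq.mpr ⟨n, hn, rfl⟩).symm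

variable (N)

noncomputable def qd (X : GS V) (a b : QV N V) : ℕ :=
  sInf {m | ∃ x y, qmk N x = a ∧ qmk N y = b ∧ X.d x y = m}

variable {N} {X : GS V}

lemma qd_le (x y : V) : qd N X (qmk N x) (qmk N y) ≤ X.d x y :=
  Nat.sInf_le ⟨x, y, rfl, rfl, rfl⟩

lemma qd_lift (hi : Iso X G) (x : V) (b : QV N V) :
    ∃ y, qmk N y = b ∧ X.d x y = qd N X (qmk N x) b := by
  obtain ⟨y0, rfl⟩ := qmk_surj b
  have h : qd N X (qmk N x) (qmk N y0) ∈
      {m | ∃ x' y, qmk N x' = qmk N x ∧ qmk N y = qmk N y0 ∧ X.d x' y = m} :=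
    Nat.sInf_mem ⟨_, x, y0, rfl, rfl, rfl⟩
  obtain ⟨x', y, h1, h2, h3⟩ := h
  obtain ⟨n, hn, rfl⟩ := qmk_eq.mp h1
  exact ⟨n • y, by rw [qmk_smul hn, h2], by rw [hi, h3]⟩

variable (N X)

/-- the quotient graph -/
noncomputable def qGS (hi : Iso X G) : GS (QV N V) where
  d := qd N X
  d_self a := by
    obtain ⟨x, rfl⟩ := qmk_surj a
    have := qd_le (N := N) (X := X) x x
    rw [X.d_self] at this
    omega
  eq_of_d a b h := by
    obtain ⟨x, rfl⟩ := qmk_surj a
    obtain ⟨y, h1, h2⟩ := qd_lift hi x b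
    rw [h] at h2
    rw [X.eq_of_d _ _ h2, h1]
  symm a b := by
    unfold qd
    congr 1
    ext m
    constructor <;> rintro ⟨x, y, h1, h2, h3⟩ <;> exact ⟨y, x, h2, h1, by rw [X.symm, h3]⟩
  tri a b c := by
    obtain ⟨x, rfl⟩ := qmk_surj a
    obtain ⟨y, rfl, h2⟩ := qd_lift hi x b
    obtain ⟨z, rfl, h3⟩ := qd_lift hi y c
    have := qd_le (N := N) (X := X) x z
    have := X.tri x y z
    omega
  step a b n h := by
    obtain ⟨x, rfl⟩ := qmk_surj a
    obtain ⟨y, rfl, h2⟩ := qd_lift hi x b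
    obtain ⟨z, h3, h4⟩ := X.step x y n (by omega)
    have a1 := qd_le (N := N) (X := X) x z
    have a2 := qd_le (N := N) (X := X) z y
    obtain ⟨z', h5, h6⟩ := qd_lift hi x (qmk N z)
    obtain ⟨y', h7, h8⟩ := qd_lift hi z' (qmk N y)
    have a3 := qd_le (N := N) (X := X) x y'
    have a4 := X.tri x z' y'
    rw [h5] at h8
    rw [h7] at a3
    exact ⟨qmk N z, by omega, by omega⟩

variable {X}

instance qAct [hN : N.Normal] : MulAction G (QV N V) where
  smul g := Quotient.map (fun x => g • x) (by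
    rintro x y ⟨n, hn, rfl⟩
    exact ⟨g * n * g⁻¹, hN.conj_mem n hn g, by rw [mul_smul, mul_smul, inv_smul_smul]⟩)
  one_smul a := by
    obtain ⟨x, rfl⟩ := qmk_surj a
    show qmk N ((1 : G) • x) = _
    rw [one_smul]
  mul_smul g h a := by
    obtain ⟨x, rfl⟩ := qmk_surj a
    show qmk N ((g * h) • x) = qmk N (g • h • x)
    rw [mul_smul]

/-- the action of the quotient group, as a homomorphism -/
def qHom (V : Type) [MulAction G V] [hN : N.Normal] : G ⧸ N →* Equiv.Perm (QV N V) :=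
  QuotientGroup.lift N (MulAction.toPermHom G (QV N V)) (by
    intro n hn
    ext a
    obtain ⟨x, rfl⟩ := qmk_surj a
    exact qmk_smul hn x)

instance qAct' [hN : N.Normal] : MulAction (G ⧸ N) (QV N V) := MulAction.compHom _ (qHom N V)

variable {N}

lemma qsmul [hN : N.Normal] (g : G) (x : V) :
    (QuotientGroup.mk' N g) • qmk N x = qmk N (g • x) := rfl

lemma lift_seq (hi : Iso X G) (ζ : ℕ → QV N V) (x : V) (hx : qmk N x = ζ 0) :
    ∃ y : ℕ → V, y 0 = x ∧ (∀ i, qmk N (y i) = ζ i) ∧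
      ∀ i, X.d (y i) (y (i + 1)) = qd N X (ζ i) (ζ (i + 1)) := by
  choose f hf1 hf2 using qd_lift (N := N) hi
  let y : ℕ → V := fun i => Nat.rec x (fun i a => f a (ζ (i + 1))) i
  have h1 : ∀ i, qmk N (y i) = ζ i := by
    intro i
    cases i with
    | zero => exact hx
    | succ i => exact hf1 _ _
  refine ⟨y, rfl, h1, fun i => ?_⟩
  rw [← h1 i]
  exact hf2 _ _

end quot

section rot

variable {V G : Type} [Group G] [MulAction G V]
variable {X : GS V} {C : Set V} {R : V → Subgroup G} {θ L : ℕ}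

theorem Rot.slim_quot (H : Rot X C R θ L) (hnb : ∀ y, ∃ z, z ∉ C ∧ X.d z y ≤ 1)
    (hL : 7 * θ ≤ L) {δ : ℕ} (hs : X.Slim δ) : (qGS (rotSub C R) X H.iso).Slim δ := by
  intro a b w z hz
  obtain ⟨x, rfl⟩ := qmk_surj a
  obtain ⟨y, h0, h1, h2⟩ := lift_seq H.iso (fun i => if i = 1 then z else if i = 2 then b
    else if i = 3 then w else qmk (rotSub C R) x) x (by simp)
  have h4 := h1 4
  simp only [OfNat.ofNat_ne_one, if_false, Nat.reduceEqDiff] at h4
  obtain ⟨m, hm, hm2⟩ := qmk_eq.mp h4.symm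
  obtain ⟨n, hn1, hn2, hn3, hn4⟩ := H.lift_closed hnb (k := 4) hL hm y (by rw [h0, hm2])
  have e0 := hn4 0 (by omega)
  have e1 := hn4 1 (by omega)
  have e2 := hn4 2 (by omega)
  have e3 := hn4 3 (by omega)
  have f0 := h2 0
  have f1 := h2 1
  have f2 := h2 2
  have f3 := h2 3
  have g1 := h1 1
  have g2 := h1 2
  have g3 := h1 3
  simp only [zero_ne_one, if_false, OfNat.zero_ne_ofNat, zero_add, if_true, Nat.reduceAdd,
    OfNat.ofNat_ne_one, Nat.reduceEqDiff] at f0 f1 f2 f3 g1 g2 g3 e0 e1 e2 e3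
  rw [hn2, one_smul, h0] at e0
  rw [hn3, h0] at e3
  rw [h0] at f0
  rw [← qmk_smul (hn1 1)] at g1
  rw [← qmk_smul (hn1 2)] at g2
  rw [← qmk_smul (hn1 3)] at g3
  set z' := n 1 • y 1
  set b' := n 2 • y 2
  set w' := n 3 • y 3
  subst g1 g2 g3
  have hz' : qd (rotSub C R) X (qmk _ x) (qmk _ z') + qd (rotSub C R) X (qmk _ z') (qmk _ b') =
    qd (rotSub C R) X (qmk _ x) (qmk _ b') := hz
  have k1 := qd_le (N := rotSub C R) (X := X) x b'
  have k2 := X.tri x z' b'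
  obtain ⟨p, hp, hp2⟩ := hs x b' w' z' (by unfold GS.Btw; omega)
  refine ⟨qmk _ p, ?_, (qd_le z' p).trans hp2⟩
  have s1 := (qGS (rotSub C R) X H.iso).symm (qmk _ w') (qmk _ x)
  have s2 := (qGS (rotSub C R) X H.iso).symm (qmk _ b') (qmk _ w')
  have s3 := X.symm w' x
  have s4 := X.symm b' w'
  have t1 := (qGS (rotSub C R) X H.iso).tri (qmk _ x) (qmk _ p) (qmk _ w')
  have t2 := (qGS (rotSub C R) X H.iso).tri (qmk _ w') (qmk _ p) (qmk _ b')
  have k3 := qd_le (N := rotSub C R) (X := X) x p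
  have k4 := qd_le (N := rotSub C R) (X := X) p w'
  have k5 := qd_le (N := rotSub C R) (X := X) w' p
  have k6 := qd_le (N := rotSub C R) (X := X) p b'
  unfold GS.Btw at hp ⊢
  simp only [qGS] at s1 s2 t1 t2 ⊢
  rcases hp with hp | hp
  · left; omega
  · right; omega

theorem Rot.fine_quot (H : Rot X C R θ L) (hnb : ∀ y, ∃ z, z ∉ C ∧ X.d z y ≤ 1)
    (hind : ∀ c ∈ C, ∀ c' ∈ C, X.d c c' ≠ 1) (hf : X.Fine) (M : ℕ) (hL : (M + 5) * θ ≤ L)
    (a b : QV (rotSub C R) V) (hab : (qGS (rotSub C R) X H.iso).d a b = 1) :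
    {w | (qGS (rotSub C R) X H.iso).d a w = 1 ∧ (qGS (rotSub C R) X H.iso).Av a M b w}.Finite := by
  obtain ⟨c, rfl⟩ := qmk_surj a
  obtain ⟨u, rfl, hu⟩ := qd_lift H.iso c b
  have hu1 : X.d c u = 1 := hu.trans hab
  refine ((hf c u M hu1).image (qmk (rotSub C R))).subset ?_
  rintro w ⟨hw1, hw2⟩
  obtain ⟨ζ, z0, zM, zc, zd⟩ := Av.exists_seq hw2
  obtain ⟨y, h0, h1, h2⟩ := lift_seq H.iso
    (fun i => if i = 0 then qmk (rotSub C R) c else if i ≤ M + 1 then ζ (i - 1)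
      else qmk (rotSub C R) c) c (by simp)
  have h4 := h1 (M + 2)
  rw [if_neg (by omega), if_neg (by omega)] at h4
  obtain ⟨m, hm, hm2⟩ := qmk_eq.mp h4.symm
  obtain ⟨n, hn1, hn2, hn3, hn4⟩ := H.lift_closed hnb (k := M + 2) hL hm y (by rw [h0, hm2])
  have hq : ∀ i, i ≤ M → qmk (rotSub C R) (n (i + 1) • y (i + 1)) = ζ i := by
    intro i hi
    rw [qmk_smul (hn1 _), h1, if_neg (by omega), if_pos (by omega)]
    rfl
  have e0 : X.d c (n 1 • y 1) ≤ 1 := by
    have a1 := hn4 0 (by omega)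
    have a2 := h2 0
    rw [hn2, one_smul] at a1
    rw [if_pos rfl, if_neg (by omega), if_pos (by omega), Nat.sub_self, z0] at a2
    rw [a2, h0] at a1
    exact a1.trans hab.le
  have eM : X.d (n (M + 1) • y (M + 1)) c ≤ 1 := by
    have a1 := hn4 (M + 1) (by omega)
    have a2 := h2 (M + 1)
    rw [if_neg (by omega), if_pos le_rfl, if_neg (by omega), if_neg (by omega),
      Nat.add_sub_cancel, zM] at a2
    rw [hn3, h0, a2] at a1
    refine a1.trans ?_
    have := (qGS (rotSub C R) X H.iso).symm w (qmk _ c)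
    simp only [qGS] at this hw1
    omega
  have ei : ∀ i, i < M → X.d (n (i + 1) • y (i + 1)) (n (i + 1 + 1) • y (i + 1 + 1)) ≤ 1 := by
    intro i hi
    have a1 := hn4 (i + 1) (by omega)
    have a2 := h2 (i + 1)
    rw [if_neg (by omega), if_pos (by omega), if_neg (by omega), if_pos (by omega),
      Nat.add_sub_cancel, Nat.add_sub_cancel] at a2
    rw [a2] at a1
    exact a1.trans (zd i)
  obtain ⟨s, hs, hsc, hsu⟩ : ∃ s ∈ rotSub C R, s • c = c ∧ s • (n 1 • y 1) = u := by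
    have a1 := hq 0 (by omega)
    rw [z0] at a1
    obtain ⟨s, hs, hs2⟩ := qmk_eq.mp a1
    simp only [zero_add] at hs2
    by_cases hc : c ∈ C
    · have huC : u ∉ C := fun h => hind c hc u h hu1
      refine ⟨s, hs, H.edge_unique huC s hs c (by rw [X.symm]; exact hu1.le) ?_, hs2⟩
      rw [← hs2, H.iso, X.symm]
      exact e0
    · refine ⟨1, one_mem _, one_smul _ _, ?_⟩
      have := H.edge_unique hc s hs _ e0 (by rw [hs2]; exact hu1.le)
      rw [one_smul, ← this, hs2]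
  have hne : ∀ i, i ≤ M → s • n (i + 1) • y (i + 1) ≠ c := by
    intro i hi h
    apply zc i
    rw [← hq i hi, ← qmk_smul hs, h]
  refine ⟨s • n (M + 1) • y (M + 1), ⟨?_, ?_⟩, by rw [qmk_smul hs, hq M le_rfl, zM]⟩
  · have a1 : X.d c (s • n (M + 1) • y (M + 1)) ≤ 1 := by
      conv_lhs => rw [← hsc, H.iso, X.symm]
      exact eM
    have a2 := d_pos (X := X) (hne M le_rfl).symm
    omega
  · have := av_of_seq (X := X) (c := c) M (fun i => s • n (i + 1) • y (i + 1)) hne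
      (fun i hi => by rw [H.iso]; exact ei i hi)
    simp only [zero_add] at this
    rwa [hsu] at this

end rot

theorem thm_fill : S_fill := by
  intro G V _ _ X p q o H
  classical
  obtain ⟨δ, hδ⟩ := H.hyp
  obtain ⟨S, hS, hS2⟩ := H.cof
  set θ := 16 * (6 * δ + 1) + 4 with hθ
  set L := (θ + 12) * θ with hL
  have hγ : ∀ a : V, ∃ g : G, (∃ g' : G, g' • a = p) → g • a = p := by
    intro a
    by_cases h : ∃ g' : G, g' • a = p
    · obtain ⟨g', h⟩ := h
      exact ⟨g', fun _ => h⟩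
    · exact ⟨1, fun h' => absurd h' h⟩
  choose γ hγ using hγ
  let Sp : Set V := (fun e : V × V => γ e.1 • e.2) '' S
  have hSp : Sp.Finite := hS.image _
  have hrep : ∀ u, X.d p u = 1 → ∃ s : G, s • p = p ∧ s • u ∈ Sp := by
    intro u hu
    obtain ⟨g, hg⟩ := hS2 p u hu
    refine ⟨γ (g • p) * g, ?_, ⟨_, hg, by simp only [mul_smul]⟩⟩
    rw [mul_smul]
    exact hγ _ ⟨g⁻¹, inv_smul_smul _ _⟩
  refine ⟨{f | f ≠ 1 ∧ f • p = p ∧ ∃ u ∈ Sp, X.d p u = 1 ∧ X.Av p (L + 2 * θ) u (f • u)}, ?_,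
    fun f hf => ⟨hf.1, hf.2.1⟩, ?_⟩
  · have h1 : ∀ u, {f : G | f • p = p ∧ X.d p u = 1 ∧ X.Av p (L + 2 * θ) u (f • u)}.Finite := by
      intro u
      by_cases hu : X.d p u = 1
      · refine Set.Finite.of_finite_image (f := fun f : G => f • u)
          ((H.fine p u (L + 2 * θ) hu).subset ?_) ?_
        · rintro _ ⟨f, hf, rfl⟩
          refine ⟨?_, hf.2.2⟩
          conv_lhs => rw [← hf.1, H.iso]
          exact hu
        · intro f hf f' hf' h
          have hpu : p ≠ u := by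
            intro h1
            rw [← h1, X.d_self] at hu
            omega
          have := H.pair (f⁻¹ * f') p u hpu (by rw [mul_smul, hf'.1, inv_smul_eq_iff, hf.1])
            (by rw [mul_smul, inv_smul_eq_iff]; exact h.symm)
          exact inv_mul_eq_one.mp this
      · exact Set.finite_empty.subset (fun f hf => hu hf.2.1)
    refine (hSp.biUnion (fun u _ => h1 u)).subset ?_
    rintro f ⟨_, h2, u, hu, h3, h4⟩
    exact Set.mem_biUnion hu ⟨h2, h3, h4⟩
  intro K hK1 hK2 hK3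
  let C : Set V := {c | ∃ g : G, g • p = c}
  let R : V → Subgroup G := fun c =>
    { carrier := {r | ∀ g : G, g • p = c → g⁻¹ * r * g ∈ K}
      mul_mem' := fun {a b} ha hb g hg => by
        have := mul_mem (ha g hg) (hb g hg)
        rwa [show g⁻¹ * a * g * (g⁻¹ * b * g) = g⁻¹ * (a * b) * g by group] at this
      one_mem' := fun g _ => by simp
      inv_mem' := fun {a} ha g hg => by
        have := inv_mem (ha g hg)
        rwa [show (g⁻¹ * a * g)⁻¹ = g⁻¹ * a⁻¹ * g by group] at this }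
  have hR : ∀ c r, r ∈ R c ↔ ∀ g : G, g • p = c → g⁻¹ * r * g ∈ K := fun _ _ => Iff.rfl
  have hfix : ∀ c ∈ C, ∀ r ∈ R c, r • c = c := by
    rintro _ ⟨g, rfl⟩ r hr
    have := hK1 _ (hr g rfl)
    rw [mul_smul, mul_smul, inv_smul_eq_iff] at this
    exact this
  have hRot : Rot X C R θ L := by
    refine ⟨H.iso, ?_, hfix, ?_, fun c _ a b h => hδ.four.dle h, ?_, ?_⟩
    · rintro g _ ⟨g', rfl⟩
      exact ⟨g * g', mul_smul _ _ _⟩
    · intro g c hc r hr g' hg'
      have := hr (g⁻¹ * g') (by rw [mul_smul, hg', inv_smul_smul])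
      rwa [show (g⁻¹ * g')⁻¹ * r * (g⁻¹ * g') = g'⁻¹ * (g * r * g⁻¹) * g' by group] at this
    · rintro _ ⟨g, rfl⟩ y hy r hr hr1 hd
      obtain ⟨u, hu⟩ := exists_pr (X := X) hy
      have hu2 := (H.iso.pr r).mpr hu
      rw [hfix _ ⟨g, rfl⟩ r hr] at hu2
      have h1 := H.iso.av g⁻¹ (hd u _ hu hu2)
      rw [inv_smul_smul] at h1
      have h2 : X.d p (g⁻¹ • u) = 1 := by
        rw [← H.iso g, smul_inv_smul]; exact hu.1
      obtain ⟨s, hs1, hs2⟩ := hrep _ h2
      have h3 := H.iso.av s h1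
      rw [hs1] at h3
      have h4 := hK2 s hs1 _ (hr g rfl)
      refine hK3 _ ⟨?_, hK1 _ h4, _, hs2, ?_, ?_⟩ h4
      · intro h5
        apply hr1
        have : r = g * (s⁻¹ * (s * (g⁻¹ * r * g) * s⁻¹) * s) * g⁻¹ := by group
        rw [this, h5]; group
      · conv_lhs => rw [← hs1, H.iso]
        exact h2
      · have : (s * (g⁻¹ * r * g) * s⁻¹) • s • g⁻¹ • u = s • g⁻¹ • r • u := by
          simp only [mul_smul, inv_smul_smul, smul_inv_smul]
        rw [this]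
        exact h3
    · rw [hL]; nlinarith [Nat.zero_le θ]
  have hqC : ∀ g : G, g • q ∉ C := by
    rintro g ⟨g', h⟩
    exact H.pq (g⁻¹ * g') (by rw [mul_smul, h, inv_smul_smul])
  have hoC : o ∉ C := by
    rintro ⟨g', h⟩
    exact H.po g' h
  have hnb : ∀ y, ∃ z, z ∉ C ∧ X.d z y ≤ 1 := by
    intro y
    by_cases hy : y ∈ C
    · obtain ⟨g, rfl⟩ := hy
      exact ⟨g • q, hqC g, by rw [H.iso, X.symm, H.adj]⟩
    · exact ⟨y, hy, by rw [X.d_self]; omega⟩
  have hind : ∀ c ∈ C, ∀ c' ∈ C, X.d c c' ≠ 1 := by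
    rintro _ ⟨g, rfl⟩ _ ⟨g', rfl⟩ h
    apply H.indP (g⁻¹ * g')
    rw [← H.iso g, mul_smul, smul_inv_smul]
    exact h
  haveI hN := hRot.normal
  set N := rotSub C R with hNdef
  have hslim : (qGS N X H.iso).Slim δ :=
    hRot.slim_quot hnb (by rw [hL]; nlinarith [Nat.zero_le θ]) hδ
  have hone : ∀ g : G, QuotientGroup.mk' N g = 1 ↔ g ∈ N := fun g => QuotientGroup.eq_one_iff g
  have hstab : ∀ (γ : G ⧸ N) (v : V), γ • qmk N v = qmk N v →
      ∃ g : G, QuotientGroup.mk' N g = γ ∧ g • v = v := by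
    intro γ v h
    obtain ⟨g, rfl⟩ := QuotientGroup.mk'_surjective N γ
    rw [qsmul] at h
    obtain ⟨n, hn, h⟩ := qmk_eq.mp h
    refine ⟨n * g, ?_, by rw [mul_smul, h]⟩
    rw [map_mul, (hone n).mpr hn, one_mul]
  have horb : ∀ a b : V, (∀ g : G, g • a ≠ b) → ∀ γ : G ⧸ N, γ • qmk N a ≠ qmk N b := by
    intro a b hab γ h
    obtain ⟨g, rfl⟩ := QuotientGroup.mk'_surjective N γ
    rw [qsmul] at h
    obtain ⟨n, hn, h⟩ := qmk_eq.mp h
    exact hab (n * g) (by rw [mul_smul, h])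
  have hindq : ∀ a : V, (∀ g : G, X.d a (g • a) ≠ 1) → ∀ γ : G ⧸ N,
      (qGS N X H.iso).d (qmk N a) (γ • qmk N a) ≠ 1 := by
    intro a ha γ h
    obtain ⟨g, rfl⟩ := QuotientGroup.mk'_surjective N γ
    rw [qsmul] at h
    obtain ⟨y, h1, h2⟩ := qd_lift (N := N) H.iso a (qmk N (g • a))
    obtain ⟨n, hn, h3⟩ := qmk_eq.mp h1.symm
    apply ha (n * g)
    rw [mul_smul, h3, h2]
    exact h
  refine ⟨G ⧸ N, QV N V, inferInstance, inferInstance, qGS N X H.iso, QuotientGroup.mk' N, qmk N,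
    ⟨?_, ⟨δ, hslim⟩, ?_, ?_, ?_, ?_, hindq p H.indP, hindq q H.indQ, horb _ _ H.pq, horb _ _ H.po,
      horb _ _ H.qo⟩, QuotientGroup.mk'_surjective N, fun g v => (qsmul g v).symm, hstab,
    ?_, ?_, ?_⟩
  · have key : ∀ (γ : G ⧸ N) (a b : QV N V),
        (qGS N X H.iso).d (γ • a) (γ • b) ≤ (qGS N X H.iso).d a b := by
      intro γ a b
      obtain ⟨g, rfl⟩ := QuotientGroup.mk'_surjective N γ
      obtain ⟨x, rfl⟩ := qmk_surj a
      obtain ⟨y, rfl, h2⟩ := qd_lift (N := N) H.iso x b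
      rw [qsmul, qsmul]
      have := qd_le (N := N) (X := X) (g • x) (g • y)
      rw [H.iso, h2] at this
      exact this
    intro γ a b
    refine le_antisymm (key γ a b) ?_
    have := key γ⁻¹ (γ • a) (γ • b)
    rwa [inv_smul_smul, inv_smul_smul] at this
  · exact fine_of_level hslim.four (fun a b hab => hRot.fine_quot hnb hind H.fine θ
      (by rw [hL]; nlinarith [Nat.zero_le θ]) a b hab)
  · refine ⟨(fun e : V × V => (qmk N e.1, qmk N e.2)) '' S, hS.image _, ?_⟩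
    intro a b hab
    obtain ⟨x, rfl⟩ := qmk_surj a
    obtain ⟨y, rfl, h2⟩ := qd_lift (N := N) H.iso x b
    obtain ⟨g, hg⟩ := hS2 x y (h2.trans hab)
    exact ⟨QuotientGroup.mk' N g, _, hg, by rw [qsmul, qsmul]⟩
  · intro γ a b hab ha hb
    obtain ⟨x, rfl⟩ := qmk_surj a
    obtain ⟨y0, rfl⟩ := qmk_surj b
    obtain ⟨g, rfl, hg⟩ := hstab γ x ha
    obtain ⟨n0, hn0, hred⟩ := hRot.exists_reduced (by rw [hL]; nlinarith [Nat.zero_le θ]) x y0
    rw [← qmk_smul hn0 y0] at hab hb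
    rw [qsmul] at hb
    obtain ⟨n, hn, h3⟩ := qmk_eq.mp hb.symm
    obtain ⟨z, hz, hd⟩ := hnb (n0 • y0)
    rw [hone]
    exact hRot.pair_lift H.pair hz hd n hn x g (fun h => hab (by rw [h])) hred hg h3.symm
  · have h1 := qd_le (N := N) (X := X) p q
    rw [H.adj] at h1
    have h2 := d_pos (X := qGS N X H.iso) (x := qmk N p) (y := qmk N q)
      (by have := horb p q H.pq 1; rwa [one_smul] at this)
    simp only [qGS] at h2 ⊢
    omega
  · intro g hg
    rw [hone]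
    constructor
    · intro h
      obtain ⟨z, hz, hd⟩ := hnb p
      have := hRot.stab_mem hz hd g h hg ⟨1, one_smul _ _⟩ 1 (one_smul _ _)
      simpa using this
    · intro h
      refine mem_rotSub (C := C) (R := R) (c := p) (show p ∈ C from ⟨1, one_smul _ _⟩) ?_
      intro a ha
      have := hK2 a⁻¹ (by rw [inv_smul_eq_iff, ha]) g h
      rwa [inv_inv] at this
  · intro g hg h
    rw [hone] at h
    exact hRot.stab_notMem (by have := hqC 1; rwa [one_smul] at this) h hg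
  · intro g hg h
    rw [hone] at h
    exact hRot.stab_notMem hoC h hg

end Pool.Agent.H668Z.SC
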