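import Pool.Agent.H668Z.SC.Final0
import Pool.Agent.H729Z.Box.Main
import Pool.Agent.H923Z.SCApp

set_option autoImplicit false

/-! Every countably infinite group embeds in a product of two monsters. -/

namespace Pool.Agent.H668Z.SC

theorem embed_holds : S_embed := embed_of_box Pool.Agent.H729Z.Box.thm_box

end Pool.Agent.H668Z.SC
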