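import Pool.Agent.H668Z.SC.Tower
import Pool.Agent.H668Z.SC.Fill
import Pool.Agent.H522Z.Glue.Main
import Pool.Agent.H800Z.Bow.Bow
import Pool.Agent.H460Z.ScAdd
import Pool.Agent.H915Z.Side
import Pool.Agent.H231Z.SC.Base
import Pool.Agent.H119Z.Ker

set_option autoImplicit false

/-! The embedding theorem, given the box. -/

namespace Pool.Agent.H668Z.SC

theorem embed_of_box (h : S_box) : S_embed :=
  thm_embed h Pool.Agent.H231Z.SC.thm_base (H460Z.ScAdd.thm_add Pool.Agent.H800Z.Bow.thm_bow)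
    (Pool.Agent.H522Z.Glue.thm_glue Pool.Agent.H915Z.Side.thm_side) Pool.Agent.H231Z.SC.thm_notAB
    Pool.Agent.H119Z.Ker.thm_ker thm_fill

end Pool.Agent.H668Z.SC
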