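import Pool.Agent.H668Z.SC.Cfg

set_option autoImplicit false
set_option linter.unusedSectionVars false
set_option linter.unusedVariables false

namespace Pool.Agent.H668Z.SC

open GS

variable {V G : Type*} [Group G] [MulAction G V]
variable {X : GS V} {C : Set V} {R : V → Subgroup G} {θ L : ℕ} {x : V}

lemma not_btw_of_le_one {a b v : V} (h : X.d a b ≤ 1) (ha : v ≠ a) (hb : v ≠ b) :
    ¬ X.Btw a v b := by
  have h1 := d_pos (X := X) ha.symm
  have h2 := d_pos (X := X) hb
  unfold GS.Btw; omega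

lemma av_of_seq {c : V} (k : ℕ) (y : ℕ → V) (h1 : ∀ i, i ≤ k → y i ≠ c)
    (h2 : ∀ i, i < k → X.d (y i) (y (i + 1)) ≤ 1) : X.Av c k (y 0) (y k) := by
  induction k with
  | zero => exact Av.refl _ _ (h1 0 le_rfl)
  | succ k ih =>
    exact (ih (fun i hi => h1 i (by omega)) (fun i hi => h2 i (by omega))).trans
      (Av.single (h1 k (by omega)) (h1 (k + 1) le_rfl) (h2 k (by omega)))

lemma Av.exists_seq {c u w : V} {n : ℕ} (h : X.Av c n u w) :
    ∃ y : ℕ → V, y 0 = u ∧ y n = w ∧ (∀ i, y i ≠ c) ∧ ∀ i, X.d (y i) (y (i + 1)) ≤ 1 := by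
  induction h with
  | refl n u h => exact ⟨fun _ => u, rfl, rfl, fun _ => h, fun _ => by rw [X.d_self]; omega⟩
  | step n u z w h1 h2 _ ih =>
    obtain ⟨y, a1, a2, a3, a4⟩ := ih
    refine ⟨fun i => Nat.casesOn i u y, rfl, a2, fun i => ?_, fun i => ?_⟩
    · cases i with
      | zero => exact h1
      | succ i => exact a3 i
    · cases i with
      | zero => show X.d u (y 0) ≤ 1; rw [a1]; exact h2
      | succ i => exact a4 i

/-- fineness can be checked at the scale of the hyperbolicity constant -/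
lemma fine_of_level {h : ℕ} (hf : X.Four h)
    (hl : ∀ c u, X.d c u = 1 → {w | X.d c w = 1 ∧ X.Av c (16 * h + 4) u w}.Finite) : X.Fine := by
  have key : ∀ c n u, X.d c u = 1 →
      {w | ∃ z z', X.Pr c z u ∧ X.Av c n z z' ∧ X.Pr c z' w}.Finite := by
    intro c n
    induction n with
    | zero =>
      intro u hu
      refine (hl c u hu).subset ?_
      rintro w ⟨z, z', h1, h2, h3⟩
      cases h2 with
      | refl _ _ hz =>
        exact ⟨h3.1, hf.dle (not_btw_of_le_one (by rw [X.d_self]; omega) hz.symm hz.symm) u w h1 h3⟩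
    | succ n ih =>
      intro u hu
      refine ((hl c u hu).union ((hl c u hu).biUnion (fun v hv => ih v hv.1))).subset ?_
      rintro w ⟨z, z', h1, h2, h3⟩
      cases h2 with
      | refl _ _ hz =>
        left
        exact ⟨h3.1, hf.dle (not_btw_of_le_one (by rw [X.d_self]; omega) hz.symm hz.symm) u w h1 h3⟩
      | step _ _ z1 _ hz h4 h5 =>
        right
        obtain ⟨v, hv⟩ := exists_pr (X := X) h5.ne_left
        rw [Set.mem_iUnion₂]
        exact ⟨v, ⟨hv.1, hf.dle (not_btw_of_le_one h4 hz.symm h5.ne_left.symm) u v h1 hv⟩,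
          z1, z', hv, h5, h3⟩
  intro c u n hu
  refine (key c n u hu).subset ?_
  rintro w ⟨h1, h2⟩
  exact ⟨u, w, ⟨hu, by rw [X.d_self, hu]⟩, h2, ⟨h1, by rw [X.d_self, h1]⟩⟩

/-- some pair of first vertices is at angle at most `n` -/
def Dex (X : GS V) (c a b : V) (n : ℕ) : Prop := ∃ u w, X.Pr c a u ∧ X.Pr c b w ∧ X.Av c n u w

lemma dex_of_dle {c a b : V} {n : ℕ} (h : X.Dle c a b n) (ha : a ≠ c) (hb : b ≠ c) :
    Dex X c a b n := by
  obtain ⟨u, hu⟩ := exists_pr (X := X) ha
  obtain ⟨w, hw⟩ := exists_pr (X := X) hb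
  exact ⟨u, w, hu, hw, h u w hu hw⟩

lemma BGI.dle_of_dex (hB : BGI X C θ) {c a b : V} (hc : c ∈ C) {n : ℕ} (h : Dex X c a b n)
    (ha : a ≠ c) (hb : b ≠ c) : X.Dle c a b (n + 2 * θ) := by
  obtain ⟨u, w, hu, hw, h⟩ := h
  intro u' w' hu' hw'
  have h1 := hB c hc a a (not_btw_of_le_one (by rw [X.d_self]; omega) ha.symm ha.symm) u' u hu' hu
  have h2 := hB c hc b b (not_btw_of_le_one (by rw [X.d_self]; omega) hb.symm hb.symm) w w' hw hw'
  exact ((h1.trans h).trans h2).mono (by omega)

/-- `y` cannot be brought to a small angle by a rotation -/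
def Reduced (X : GS V) (C : Set V) (R : V → Subgroup G) (θ : ℕ) (x y : V) : Prop :=
  ∀ c ∈ C, c ≠ x → y ≠ c → ∀ r ∈ R c, r ≠ 1 → ¬ X.Dle c x (r • y) (6 * θ)

namespace Rot

variable (H : Rot X C R θ L)
include H

theorem lift_poly (hx : x ∉ C) {K : ℕ} (hK : (K + 1) * θ ≤ L) :
    ∀ g ∈ rotSub C R, ∀ k, k ≤ K → ∀ y : ℕ → V, y 0 = x → y k = g • x →
      ∃ n : ℕ → G, (∀ i, n i ∈ rotSub C R) ∧ n 0 = 1 ∧ n k * g = 1 ∧
        ∀ i, i < k → X.d (n i • y i) (n (i + 1) • y (i + 1)) ≤ X.d (y i) (y (i + 1)) := by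
  refine H.induction hx _ ?_ ?_
  · intro k _ y _ _
    exact ⟨fun _ => 1, fun _ => one_mem _, rfl, by simp, fun i _ => by simp⟩
  intro c hc r hr g hg hr1 _ hbig ih k hk y hy0 hyk
  have hxc : x ≠ c := fun h => hx (h ▸ hc)
  have hex : ∃ i, i < k ∧ X.Btw (y i) c (y (i + 1)) := by
    by_contra hcon
    push Not at hcon
    have key : ∀ j, j ≤ k → y j ≠ c ∧ X.Dle c x (y j) ((j + 1) * θ) := by
      intro j
      induction j with
      | zero =>
        intro _
        rw [hy0]
        refine ⟨hxc, (H.bgi c hc x x (not_btw_of_le_one (by rw [X.d_self]; omega) hxc.symm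
          hxc.symm)).mono (by omega)⟩
      | succ j ih2 =>
        intro hj
        have h1 := ih2 (by omega)
        have h2 := hcon j (by omega)
        refine ⟨?_, (h1.2.trans h1.1 (H.bgi c hc _ _ h2)).mono (by rw [Nat.succ_mul (j + 1)])⟩
        intro h3
        rw [h3] at h2
        exact h2 (btw_right _ _)
    have h1 := (key k le_rfl).2
    rw [hyk] at h1
    exact hbig (h1.mono ((Nat.mul_le_mul_right θ (by omega)).trans hK))
  obtain ⟨i0, hi0, hb⟩ := hex
  obtain ⟨n, hn1, hn2, hn3, hn4⟩ := ih k hk (fun j => if j ≤ i0 then y j else r⁻¹ • y j)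
    (by simp [hy0]) (by rw [if_neg (by omega), hyk, mul_smul, inv_smul_smul])
  refine ⟨fun j => if j ≤ i0 then n j else n j * r⁻¹, fun j => ?_, by simp [hn2], ?_, ?_⟩
  · dsimp only
    split_ifs
    · exact hn1 j
    · exact mul_mem (hn1 j) (inv_mem (mem_rotSub hc hr))
  · dsimp only
    rw [if_neg (by omega), ← hn3]; group
  · intro i hi
    have h1 := hn4 i hi
    dsimp only at h1 ⊢
    rcases lt_trichotomy i i0 with h | h | h
    · rw [if_pos (by omega), if_pos (by omega)] at h1 ⊢
      exact h1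
    · subst h
      rw [if_pos le_rfl, if_neg (by omega)] at h1 ⊢
      rw [mul_smul]
      refine h1.trans ?_
      have h2 : X.d c (r⁻¹ • y (i + 1)) = X.d c (y (i + 1)) := by
        rw [← H.iso r, smul_inv_smul, H.fix c hc r hr]
      have := X.tri (y i) c (r⁻¹ • y (i + 1))
      unfold GS.Btw at hb
      omega
    · rw [if_neg (by omega), if_neg (by omega)] at h1 ⊢
      rw [mul_smul, mul_smul]
      rwa [H.iso r⁻¹] at h1

theorem edge_unique {u : V} (hu : u ∉ C) :
    ∀ n ∈ rotSub C R, ∀ c, X.d u c ≤ 1 → X.d u (n • c) ≤ 1 → n • c = c := by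
  refine H.induction hu _ (fun c _ _ => one_smul _ _) ?_
  intro v hv r hr g hg hr1 _ hbig ih c h1 h2
  have hvu : v ≠ u := fun h => hu (h ▸ hv)
  have hvu' : v ≠ (r * g) • u := fun h => H.smul_notMem _ hu (h ▸ hv)
  have hvc : v = (r * g) • c := by
    by_contra h
    apply hbig
    have a1 := H.bgi v hv _ _ (not_btw_of_le_one h2 hvu h)
    have a2 := H.bgi v hv ((r * g) • c) ((r * g) • u)
      (not_btw_of_le_one (by rw [H.iso, X.symm]; exact h1) h hvu')
    exact (a1.trans (Ne.symm h) a2).mono (by have := H.big; omega)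
  have h3 : g • c = v := by
    rw [← H.fix v hv r⁻¹ (inv_mem hr), hvc, mul_smul, inv_smul_smul]
  have h4 := ih c h1 (by rw [h3, hvc]; exact h2)
  rw [← hvc, ← h3, h4]

theorem stab_notMem {y : V} (hy : y ∉ C) {n : G} (hn : n ∈ rotSub C R) (h : n • y = y) :
    n = 1 := by
  by_contra h1
  obtain ⟨c, hc, r, _, _, _, h2⟩ := H.greendlinger hy hn h1
  have hyc : c ≠ y := fun h => hy (h ▸ hc)
  rw [h] at h2
  exact h2 ((H.bgi c hc y y (not_btw_of_le_one (by rw [X.d_self]; omega) hyc hyc)).mono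
    (by have := H.big; omega))

theorem stab_mem {y z : V} (hz : z ∉ C) (hd : X.d z y ≤ 1) :
    ∀ n ∈ rotSub C R, n • y = y → y ∈ C → n ∈ R y := by
  refine H.induction hz _ (fun _ _ => one_mem _) ?_
  intro v hv r hr g hg hr1 _ hbig ih h1 hy
  have hvu : v ≠ z := fun h => hz (h ▸ hv)
  have hvu' : v ≠ (r * g) • z := fun h => H.smul_notMem _ hz (h ▸ hv)
  have hvc : v = y := by
    by_contra h
    apply hbig
    have a1 := H.bgi v hv _ _ (not_btw_of_le_one hd hvu h)
    have a2 := H.bgi v hv y ((r * g) • z)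
      (not_btw_of_le_one (by rw [← h1, H.iso, X.symm]; exact hd) h hvu')
    exact (a1.trans (Ne.symm h) a2).mono (by have := H.big; omega)
  subst hvc
  refine mul_mem hr (ih ?_ hy)
  rw [← H.fix v hv r⁻¹ (inv_mem hr)]
  conv_rhs => rw [← h1, mul_smul, inv_smul_smul]
  rw [H.fix v hv r⁻¹ (inv_mem hr)]

theorem lift_closed (hnb : ∀ y, ∃ z, z ∉ C ∧ X.d z y ≤ 1) {k : ℕ} (hK : (k + 3) * θ ≤ L)
    {g : G} (hg : g ∈ rotSub C R) (y : ℕ → V) (hy : y k = g • y 0) :
    ∃ n : ℕ → G, (∀ i, n i ∈ rotSub C R) ∧ n 0 = 1 ∧ n k • y k = y 0 ∧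
      ∀ i, i < k → X.d (n i • y i) (n (i + 1) • y (i + 1)) ≤ X.d (y i) (y (i + 1)) := by
  obtain ⟨z, hz, hd⟩ := hnb (y 0)
  obtain ⟨n, h1, h2, h3, h4⟩ := H.lift_poly hz (K := k + 2) hK g hg (k + 2) le_rfl
    (fun i => if i = 0 then z else if i ≤ k + 1 then y (i - 1) else g • z) (by simp)
    (by simp)
  have a1 : n 1 • y 0 = y 0 := by
    have := h4 0 (by omega)
    simp only [h2, one_smul, if_true, zero_add, one_ne_zero, if_false, le_add_iff_nonneg_left,
      zero_le, Nat.sub_self] at this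
    exact H.edge_unique hz _ (h1 1) _ hd (this.trans hd)
  have a2 : n (k + 1) • y k = y 0 := by
    have := h4 (k + 1) (by omega)
    simp only [Nat.add_eq_zero_iff, one_ne_zero, and_false, if_false, le_refl, if_true,
      Nat.add_sub_cancel, add_le_iff_nonpos_right, nonpos_iff_eq_zero] at this
    rw [← mul_smul (n (k + 1 + 1)), h3, one_smul, hy, H.iso, X.symm (y 0), X.symm _ z,
      ← mul_smul] at this
    rw [hy, ← mul_smul]
    exact H.edge_unique hz _ (mul_mem (h1 _) hg) _ hd (this.trans hd)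
  refine ⟨fun i => (n 1)⁻¹ * n (i + 1), fun i => mul_mem (inv_mem (h1 _)) (h1 _), by simp, ?_, ?_⟩
  · rw [mul_smul, a2, inv_smul_eq_iff, a1]
  · intro i hi
    have := h4 (i + 1) (by omega)
    simp only [Nat.add_eq_zero_iff, one_ne_zero, and_false, if_false, Nat.add_sub_cancel] at this
    rw [if_pos (by omega), if_pos (by omega)] at this
    rw [mul_smul, mul_smul, H.iso]
    exact this

lemma reduced_smul {x y : V} (h : Reduced X C R θ x y) (g : G) :
    Reduced X C R θ (g • x) (g • y) := by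
  intro c hc hcx hyc r hr hr1 hd
  refine h (g⁻¹ • c) (H.smul_mem _ _ hc) (fun h1 => hcx (by rw [← h1, smul_inv_smul]))
    (fun h1 => hyc (by rw [h1, smul_inv_smul])) (g⁻¹ * r * g⁻¹⁻¹) (H.conj _ c hc r hr) ?_ ?_
  · intro h1
    apply hr1
    have : r = g * (g⁻¹ * r * g⁻¹⁻¹) * g⁻¹ := by group
    rw [this, h1]; group
  · rw [← H.iso.dle_iff g, smul_inv_smul, ← mul_smul]
    have : g * (g⁻¹ * r * g⁻¹⁻¹) = r * g := by group
    rw [this, mul_smul]
    exact hd

theorem exists_reduced (hL : 12 * θ ≤ L) (x y : V) :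
    ∃ n ∈ rotSub C R, Reduced X C R θ x (n • y) := by
  classical
  let B : V → Finset ℕ := fun y => (Finset.range (X.d x y + 1)).filter
    (fun k => ∃ v ∈ C, v ≠ x ∧ v ≠ y ∧ X.d x v = k ∧ ¬ Dex X v x y (6 * θ))
  have key : ∀ m j : ℕ, ∀ y, X.d x y = m → (B y).card = j →
      ∃ n ∈ rotSub C R, Reduced X C R θ x (n • y) := by
    intro m
    induction m using Nat.strong_induction_on with
    | _ m ihm =>
    intro j
    induction j using Nat.strong_induction_on with
    | _ j ihj =>
    intro y hm hj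
    by_cases hred : Reduced X C R θ x y
    · exact ⟨1, one_mem _, by rwa [one_smul]⟩
    unfold Reduced at hred
    push Not at hred
    obtain ⟨c, hc, hcx, hyc, r, hr, hr1, hd⟩ := hred
    have hfix := H.fix c hc r hr
    suffices h : ∃ n ∈ rotSub C R, Reduced X C R θ x (n • r • y) by
      obtain ⟨n, hn, h⟩ := h
      exact ⟨n * r, mul_mem hn (mem_rotSub hc hr), by rwa [mul_smul]⟩
    have h8 : ¬ X.Dle c x y (8 * θ) := fun h1 =>
      H.spin c hc y hyc r hr hr1 ((h1.symm.trans hcx.symm hd).mono (by omega))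
    have h2 : ¬ X.Dle c x y (2 * θ) := fun h1 => h8 (h1.mono (by omega))
    have hb : X.Btw x c y := H.bgi.btw hc (by omega) h2
    have hdc : X.d c (r • y) = X.d c y := by conv_lhs => rw [← hfix, H.iso]
    have ht := X.tri x c (r • y)
    have hb' := hb
    unfold GS.Btw at hb'
    rcases lt_or_ge (X.d x (r • y)) m with h3 | h3
    · exact ihm _ h3 _ _ rfl rfl
    have hb2 : X.Btw x c (r • y) := by unfold GS.Btw; omega
    have hryc : r • y ≠ c := fun h => hyc (by rw [← hfix] at h; exact smul_left_cancel r h)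
    refine ihj (B (r • y)).card ?_ _ (by omega) rfl
    rw [← hj]
    apply Finset.card_lt_card
    rw [Finset.ssubset_iff_of_subset]
    · refine ⟨X.d x c, ?_, ?_⟩
      · simp only [B, Finset.mem_filter, Finset.mem_range]
        refine ⟨by omega, c, hc, hcx, hyc.symm, rfl, fun h4 => h8 ?_⟩
        exact (H.bgi.dle_of_dex hc h4 hcx.symm hyc).mono (by omega)
      · simp only [B, Finset.mem_filter, Finset.mem_range]
        rintro ⟨_, v, hv, hvx, hvy, hdv, hn⟩
        have hvc : v ≠ c := by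
          rintro rfl
          exact hn (dex_of_dle hd hcx.symm hryc)
        have h5 : ¬ X.Dle v x (r • y) (2 * θ) := fun h =>
          hn (dex_of_dle (h.mono (by omega)) hvx.symm hvy.symm)
        have h6 := H.bgi.btw hv (by omega) h5
        have h7 := d_pos (X := X) hvc
        have := X.symm c v
        rcases H.bgi.all hv h5 hb2 with h | h <;> unfold GS.Btw at * <;> omega
    · intro k hk
      simp only [B, Finset.mem_filter, Finset.mem_range] at hk ⊢
      obtain ⟨hk1, v, hv, hvx, hvy, hdv, hn⟩ := hk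
      refine ⟨by omega, ?_⟩
      have hvc : v ≠ c := by
        rintro rfl
        exact hn (dex_of_dle hd hcx.symm hryc)
      have h5 : ¬ X.Dle v x (r • y) (2 * θ) := fun h =>
        hn (dex_of_dle (h.mono (by omega)) hvx.symm hvy.symm)
      have h6 := H.bgi.btw hv (by omega) h5
      have h7 := d_pos (X := X) hvc
      have s1 := X.symm c v
      rcases H.bgi.all hv h5 hb2 with h | h
      · have e1 : X.d c (r⁻¹ • v) = X.d c v := by rw [← H.iso r, smul_inv_smul, hfix]
        have e2 : X.d (r⁻¹ • v) y = X.d v (r • y) := H.iso.d_inv _ _ _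
        have t1 := X.tri x c (r⁻¹ • v)
        have t2 := X.tri x (r⁻¹ • v) y
        have hvc' : r⁻¹ • v ≠ c := fun h9 => hvc (by rw [← hfix, ← h9, smul_inv_smul])
        have h' := h
        have h6' := h6
        unfold GS.Btw at h' h6'
        have hdx : X.d x (r⁻¹ • v) = k := by omega
        refine ⟨r⁻¹ • v, H.smul_mem _ _ hv, ?_, ?_, hdx, ?_⟩
        · intro h9
          rw [h9, X.d_self] at hdx
          omega
        · intro h9
          exact hvy (by rw [← h9, smul_inv_smul])
        · rintro ⟨u, w, hu, hw, hav⟩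
          have hb3 : X.Btw y (r⁻¹ • v) c := by
            have := X.symm y (r⁻¹ • v)
            have := X.symm (r⁻¹ • v) c
            have := X.symm y c
            unfold GS.Btw; omega
          have hu' := H.bgi.pr hc (fun h9 => h2 h9.symm) hb3 hvc' hu
          have hu2 := (H.iso.pr r).mpr hu'
          have hw2 := (H.iso.pr r).mpr hw
          have hav2 := H.iso.av r hav
          rw [smul_inv_smul] at hu2 hw2 hav2
          rw [hfix] at hu2
          exact hn ⟨_, _, pr_of_btw h.symm hu2, hw2, hav2⟩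
      · have h' := h
        have h6' := h6
        unfold GS.Btw at h' h6'
        have hb3 : X.Btw x v c := by unfold GS.Btw; omega
        refine ⟨v, hv, hvx, ?_, hdv, ?_⟩
        · rintro rfl
          unfold GS.Btw at hb3
          omega
        · rintro ⟨u, w, hu, hw, hav⟩
          exact hn ⟨u, w, hu, pr_of_btw h (H.bgi.pr hc h2 hb3 hvc hw), hav⟩
  exact key _ _ y rfl rfl

theorem pair_lift (hpair : ∀ (g : G) (a b : V), a ≠ b → g • a = a → g • b = b → g = 1)
    {y z : V} (hz : z ∉ C) (hd : X.d z y ≤ 1) :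
    ∀ n ∈ rotSub C R, ∀ (x : V) (g : G), x ≠ y → Reduced X C R θ x y → g • x = x →
      g • y = n • y → g ∈ rotSub C R := by
  refine H.induction hz _ ?_ ?_
  · intro x g hxy _ h1 h2
    rw [one_smul] at h2
    rw [hpair g x y hxy h1 h2]
    exact one_mem _
  intro c hc r hr n hn hr1 hsm hbig ih x g hxy hred h1 h2
  have hrN := mem_rotSub (R := R) hc hr
  have hfix := H.fix c hc r hr
  have hfix' := H.fix c hc r⁻¹ (inv_mem hr)
  by_cases hcy : c = y
  · subst hcy
    have h3 := ih (r⁻¹ • x) (r⁻¹ * g * r) (fun h => hxy (by rw [← hfix, ← h, smul_inv_smul]))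
      (by have := H.reduced_smul hred r⁻¹; rwa [hfix'] at this)
      (by rw [mul_smul, mul_smul, smul_inv_smul, h1])
      (by rw [mul_smul, mul_smul, hfix, h2, mul_smul, inv_smul_smul])
    have h4 := mul_mem (mul_mem hrN h3) (inv_mem hrN)
    rwa [show r * (r⁻¹ * g * r) * r⁻¹ = g by group] at h4
  by_cases hcny : c = (r * n) • y
  · refine ih x g hxy hred h1 ?_
    rw [h2, ← hcny, ← hfix', hcny, mul_smul, inv_smul_smul]
  by_cases hcx : c = x
  · subst hcx
    have h3 := ih c (r⁻¹ * g) hxy hred (by rw [mul_smul, h1, hfix'])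
      (by rw [mul_smul, h2, mul_smul, inv_smul_smul])
    have h4 := mul_mem hrN h3
    rwa [show r * (r⁻¹ * g) = g by group] at h4
  have hcz : c ≠ z := fun h => hz (h ▸ hc)
  have hnz : ∀ m : G, m • z ≠ c := fun m h => H.smul_notMem m hz (h ▸ hc)
  have a1 : X.Dle c z y θ := H.bgi c hc _ _ (not_btw_of_le_one hd hcz hcy)
  have a2 : X.Dle c ((r * n) • z) ((r * n) • y) θ :=
    H.bgi c hc _ _ (not_btw_of_le_one (by rw [H.iso]; exact hd) (hnz _).symm hcny)
  by_cases b1 : X.Dle c x y (2 * θ)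
  · exfalso
    have a3 : X.Dle c (n • z) (n • y) θ := by
      have := H.iso.dle r⁻¹ a2
      rwa [hfix', mul_smul, mul_smul, inv_smul_smul, inv_smul_smul] at this
    have a4 := ((b1.trans (Ne.symm hcy) a1.symm).trans hcz.symm hsm).trans (hnz n) a3
    have hred2 := H.reduced_smul hred g
    rw [h1, h2] at hred2
    refine hred2 c hc hcx (Ne.symm hcny) r⁻¹ (inv_mem hr) (inv_ne_one.mpr hr1) ?_
    rw [mul_smul, inv_smul_smul]
    exact a4.mono (by omega)
  by_cases b2 : X.Dle c x ((r * n) • y) (2 * θ)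
  · exfalso
    have a3 : X.Dle c (r • z) ((r * n) • z) (2 * θ) := by
      have := H.iso.dle r hsm
      rwa [hfix, ← mul_smul] at this
    have a5 : X.Dle c (r • z) (r • y) θ := by
      have := H.iso.dle r a1
      rwa [hfix] at this
    have a4 := ((b2.trans (Ne.symm hcny) a2.symm).trans (hnz _) a3.symm).trans (hnz r) a5
    exact hred c hc hcx (Ne.symm hcy) r hr hr1 (a4.mono (by omega))
  have b3 := H.bgi.btw hc (by omega) b1
  have b4 : X.Btw x (g • c) ((r * n) • y) := by
    have := (H.iso.btw g).mpr b3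
    rwa [h1, h2] at this
  have b5 : X.d x (g • c) = X.d x c := by conv_lhs => rw [← h1, H.iso]
  have b6 := H.bgi.btw hc (by omega) b2
  have b7 : g • c = c := by
    apply X.eq_of_d
    have := X.symm (g • c) c
    rcases H.bgi.all hc b2 b4 with h | h <;> unfold GS.Btw at * <;> omega
  rw [hpair g x c (Ne.symm hcx) h1 b7]
  exact one_mem _

end Rot

end Pool.Agent.H668Z.SC
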