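import Pool.Agent.H668Z.SC.Box

set_option autoImplicit false

/-!
# The small cancellation box on relator sets of the free group, and the limit
-/

namespace Pool.Agent.H668Z.SC

open Subgroup

/-- the free group of countable rank -/
abbrev Ph : Type := FreeGroup ℕ

/-- the retraction which kills the generators of index at least `n` -/
def rho (n : ℕ) : Ph →* Ph := FreeGroup.lift fun j => if j < n then FreeGroup.of j else 1

lemma rho_of (n j : ℕ) : rho n (FreeGroup.of j) = if j < n then FreeGroup.of j else 1 := by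
  simp [rho]

lemma rho_rho {m n : ℕ} (h : m ≤ n) (w : Ph) : rho n (rho m w) = rho m w := by
  have : (rho n).comp (rho m) = rho m := by
    ext j
    simp only [MonoidHom.comp_apply, rho_of]
    split_ifs with h1
    · rw [rho_of, if_pos (by omega)]
    · exact map_one _
  exact DFunLike.congr_fun this w

lemma rho_mono {m n : ℕ} (h : m ≤ n) {w : Ph} (hw : rho m w = w) : rho n w = w := by
  rw [← hw, rho_rho h]

lemma rho_mem (n : ℕ) (w : Ph) : rho n w ∈ closure (FreeGroup.of '' {j | j < n}) := by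
  induction w using FreeGroup.induction_on with
  | C1 => rw [map_one]; exact one_mem _
  | of j =>
    rw [rho_of]
    split_ifs with h
    · exact subset_closure ⟨j, h, rfl⟩
    · exact one_mem _
  | inv_of j ih => rw [map_inv]; exact inv_mem ih
  | mul x y hx hy => rw [map_mul]; exact mul_mem hx hy

lemma rho_ev (w : Ph) : ∃ n, rho n w = w := by
  induction w using FreeGroup.induction_on with
  | C1 => exact ⟨0, map_one _⟩
  | of j => exact ⟨j + 1, by rw [rho_of, if_pos (by omega)]⟩
  | inv_of j ih => obtain ⟨n, h⟩ := ih; exact ⟨n, by rw [map_inv, h]⟩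
  | mul x y hx hy =>
    obtain ⟨n, h⟩ := hx
    obtain ⟨m, h'⟩ := hy
    exact ⟨max n m, by rw [map_mul, rho_mono (le_max_left _ _) h, rho_mono (le_max_right _ _) h']⟩

lemma rho_ncl {n : ℕ} {R : Set Ph} (hR : ∀ r ∈ R, rho n r = r) {w : Ph}
    (hw : w ∈ normalClosure (R ∪ FreeGroup.of '' {j | n ≤ j})) : rho n w ∈ normalClosure R := by
  have : normalClosure (R ∪ FreeGroup.of '' {j | n ≤ j}) ≤ (normalClosure R).comap (rho n) := by
    apply normalClosure_le_normal
    rintro r (hr | ⟨j, hj, rfl⟩)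
    · change rho n r ∈ normalClosure R
      rw [hR r hr]
      exact subset_normalClosure hr
    · change rho n (FreeGroup.of j) ∈ normalClosure R
      rw [rho_of, if_neg (by simpa using hj)]
      exact one_mem _
  exact this hw

lemma lift_rho {G : Type} [Group G] {n : ℕ} {a a' : ℕ → G} (h1 : ∀ j, j < n → a' j = a j)
    (h2 : ∀ j, n ≤ j → a j = 1) (w : Ph) :
    FreeGroup.lift a' (rho n w) = FreeGroup.lift a w := by
  have : (FreeGroup.lift a').comp (rho n) = FreeGroup.lift a := by
    ext j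
    simp only [MonoidHom.comp_apply, rho_of, FreeGroup.lift_apply_of]
    split_ifs with h
    · rw [FreeGroup.lift_apply_of, h1 j h]
    · rw [map_one, h2 j (by omega)]
  exact DFunLike.congr_fun this w

lemma map_lift {G H : Type} [Group G] [Group H] (f : G →* H) (a : ℕ → G) (w : Ph) :
    f (FreeGroup.lift a w) = FreeGroup.lift (fun j => f (a j)) w := by
  have : f.comp (FreeGroup.lift a) = FreeGroup.lift (fun j => f (a j)) := by
    ext j
    simp
  exact DFunLike.congr_fun this w

/-- torsion modulo `M` -/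
def Tor (M : Subgroup Ph) (u : Ph) : Prop := ∃ k : ℕ, 0 < k ∧ u ^ k ∈ M

/-- commuting modulo `M` -/
def Com (M : Subgroup Ph) (a u : Ph) : Prop := a * u * a⁻¹ * u⁻¹ ∈ M

lemma tor_iff {Q : Type} [Group Q] (π : Ph →* Q) (u : Ph) :
    Tor π.ker u ↔ IsOfFinOrder (π u) := by
  rw [isOfFinOrder_iff_pow_eq_one]
  simp only [Tor, MonoidHom.mem_ker, map_pow]

lemma com_iff {Q : Type} [Group Q] (π : Ph →* Q) (a u : Ph) :
    Com π.ker a u ↔ Commute (π a) (π u) := by
  simp only [Com, MonoidHom.mem_ker, map_mul, map_inv]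
  rw [mul_inv_eq_one, mul_inv_eq_iff_eq_mul]
  rfl

/-- the relation between consecutive relator subgroups -/
structure BoxRel (t : Bool × Ph × Ph × Ph) (M M' : Subgroup Ph) : Prop where
  le : M ≤ M'
  per : ∀ u, u ∉ M → Tor M u → ∀ a, Com M' a u → ∃ s, Com M s u ∧ s⁻¹ * a ∈ M'
  gen : t.1 = true → Com M t.2.1 t.2.2.1 ∨
    ∃ w ∈ closure ({t.2.1, t.2.2.1} : Set Ph), t.2.2.2⁻¹ * w ∈ M'
  tor : t.1 = false → Tor M' t.2.2.2

/-- the task is supported on the first `n` generators -/
def Fx (n : ℕ) (t : Bool × Ph × Ph × Ph) : Prop :=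
  rho n t.2.1 = t.2.1 ∧ rho n t.2.2.1 = t.2.2.1 ∧ rho n t.2.2.2 = t.2.2.2

/-- the box, on sets of relators -/
structure BoxM (C : Set Ph → Prop) : Prop where
  base : C ∅
  cent : ∀ R, C R → ∀ u, u ∉ normalClosure R → Tor (normalClosure R) u →
    ∃ g, Tor (normalClosure R) g ∧ ∀ a, Com (normalClosure R) a u →
      ∃ j : ℤ, (g ^ j)⁻¹ * a ∈ normalClosure R
  step : ∀ R n, C R → (∀ r ∈ R, rho n r = r) → ∀ F : Set Ph, F.Finite →
    (∀ f ∈ F, f ∉ normalClosure R) → ∀ t, Fx n t →
    ∃ r, rho n r = r ∧ C (insert r R) ∧ (∀ f ∈ F, f ∉ normalClosure (insert r R)) ∧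
      BoxRel t (normalClosure R) (normalClosure (insert r R))

lemma exists_ind {A Q Q' : Type} [Group A] [Group Q] [Group Q'] (π : A →* Q)
    (hs : Function.Surjective π) (f : A →* Q') (h : π.ker ≤ f.ker) :
    ∃ g : Q →* Q', ∀ a, g (π a) = f a :=
  ⟨π.liftOfRightInverse (Function.surjInv hs) (Function.rightInverse_surjInv hs) ⟨f, h⟩,
    fun a => MonoidHom.liftOfRightInverse_comp_apply _ _ _ _ a⟩

theorem boxM_of_box (h : S_box) : ∃ C, BoxM C := by
  obtain ⟨Cl, h0, h1, h2⟩ := h
  refine ⟨fun R => ∃ (Q : Type) (_ : Group Q) (π : Ph →* Q), Function.Surjective π ∧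
    π.ker = normalClosure R ∧ Cl Q, ?_, ?_, ?_⟩
  · refine ⟨Ph, inferInstance, MonoidHom.id _, Function.surjective_id, ?_, h0⟩
    rw [MonoidHom.ker_id, eq_comm, eq_bot_iff]
    exact normalClosure_le_normal (Set.empty_subset _)
  · rintro R ⟨Q, _, π, hs, hk, hQ⟩ u hu ht
    rw [← hk] at hu ht ⊢
    obtain ⟨g, hg, hg2⟩ := h1 Q hQ (π u) hu ((tor_iff π u).mp ht)
    obtain ⟨g, rfl⟩ := hs g
    refine ⟨g, (tor_iff π g).mpr hg, fun a ha => ?_⟩
    obtain ⟨j, hj⟩ := mem_zpowers_iff.mp (hg2 _ ((com_iff π a u).mp ha))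
    exact ⟨j, by rw [MonoidHom.mem_ker, map_mul, map_inv, map_zpow, hj, inv_mul_cancel]⟩
  · rintro R n ⟨Q, _, π, hs, hk, hQ⟩ hR F hF hF1 ⟨c, x, y, z⟩ ⟨hx, hy, hz⟩
    simp only at hx hy hz
    obtain ⟨ρ, hρ⟩ := exists_ind π hs (π.comp (rho n)) (by
      intro w hw
      rw [MonoidHom.mem_ker, MonoidHom.comp_apply, ← MonoidHom.mem_ker, hk]
      rw [hk] at hw
      exact rho_ncl hR (normalClosure_mono Set.subset_union_left hw))
    simp only [MonoidHom.comp_apply] at hρ
    obtain ⟨r0, hr0, Q', _, π', hs', hk', hQ', hF', hP, hg, ht⟩ :=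
      h2 Q hQ (π '' F) (hF.image _) (by
        rintro ⟨f, hf, h⟩
        exact hF1 f hf (by rw [← hk]; exact h)) c (π x) (π y) (π z)
    obtain ⟨r1, rfl⟩ := hs r0
    have hr : π (rho n r1) = π r1 := by
      rw [← hρ]
      exact hr0 ρ (by rw [hρ, hx]) (by rw [hρ, hy]) (by rw [hρ, hz])
    have hker : (π'.comp π).ker = normalClosure (insert (rho n r1) R) := by
      apply le_antisymm
      · intro w hw
        rw [MonoidHom.mem_ker, MonoidHom.comp_apply, ← MonoidHom.mem_ker, hk', ← hr,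
          ← Set.image_singleton, ← map_normalClosure _ _ hs] at hw
        obtain ⟨k, hk1, hk2⟩ := hw
        have h3 : k⁻¹ * w ∈ normalClosure R := by
          rw [← hk, MonoidHom.mem_ker, map_mul, map_inv, hk2, inv_mul_cancel]
        have h4 : w = k * (k⁻¹ * w) := by group
        rw [h4]
        exact mul_mem (normalClosure_mono (by simp) hk1)
          (normalClosure_mono (Set.subset_insert _ _) h3)
      · apply normalClosure_le_normal
        rintro r (rfl | hr')
        · change π' (π (rho n r1)) = 1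
          rw [hr, ← MonoidHom.mem_ker, hk']
          exact subset_normalClosure rfl
        · change π' (π r) = 1
          have : π r = 1 := by rw [← MonoidHom.mem_ker, hk]; exact subset_normalClosure hr'
          rw [this, map_one]
    refine ⟨rho n r1, rho_rho le_rfl _, ⟨Q', inferInstance, π'.comp π, hs'.comp hs, hker, hQ'⟩,
      ?_, normalClosure_mono (Set.subset_insert _ _), ?_, ?_, ?_⟩
    · intro f hf h
      rw [← hker] at h
      exact hF' _ ⟨f, hf, rfl⟩ h
    · intro u hu htu a ha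
      rw [← hk] at hu htu ⊢
      rw [← hker] at ha ⊢
      obtain ⟨s, hs1, hs2⟩ := (hP (π u) hu ((tor_iff π u).mp htu)).2 (π a)
        ((com_iff (π'.comp π) a u).mp ha)
      obtain ⟨s, rfl⟩ := hs s
      refine ⟨s, (com_iff π s u).mpr hs1, ?_⟩
      rw [MonoidHom.mem_ker, map_mul, map_inv]
      simp only [MonoidHom.comp_apply]
      rw [hs2, inv_mul_cancel]
    · intro hc
      rcases hg hc with h | h
      · left
        rw [← hk]
        exact (com_iff π x y).mpr h
      · right
        have h3 : closure ({π' (π x), π' (π y)} : Set Q') = (closure {x, y}).map (π'.comp π) := by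
          rw [MonoidHom.map_closure, Set.image_pair]
          rfl
        rw [h3] at h
        obtain ⟨w, hw1, hw2⟩ := h
        refine ⟨w, hw1, ?_⟩
        rw [← hker, MonoidHom.mem_ker, map_mul, map_inv, hw2]
        exact inv_mul_cancel _
    · intro hc
      rw [← hker]
      exact (tor_iff (π'.comp π) z).mpr (ht hc)

theorem limit_mon {C : Set Ph → Prop} (hC : BoxM C) (R : ℕ → Set Ph)
    (t : ℕ → Bool × Ph × Ph × Ph) (hR : ∀ n, C (R n))
    (hrel : ∀ n, BoxRel (t n) (normalClosure (R n)) (normalClosure (R (n + 1))))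
    (ht : ∀ s, ∃ n, t n = s) {G : Type} [Group G] (α : Ph →* G)
    (hα : ∀ n, normalClosure (R n) ≤ α.ker) : Mon α.range := by
  have hmono : Monotone fun n => normalClosure (R n) :=
    monotone_nat_of_le_succ fun n => (hrel n).le
  have heq : ∀ n (s a : Ph), s⁻¹ * a ∈ normalClosure (R n) → α a = α s := by
    intro n s a h
    have := hα n h
    rw [MonoidHom.mem_ker, map_mul, map_inv, inv_mul_eq_one] at this
    exact this.symm
  intro H hH
  by_cases h1 : ∃ x y, α x ∈ H ∧ α y ∈ H ∧ ∀ n, ¬ Com (normalClosure (R n)) x y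
  · obtain ⟨x, y, hx, hy, hxy⟩ := h1
    have h2 : closure ({α x, α y} : Set G) ≤ H := by
      rw [closure_le]
      rintro _ (rfl | rfl)
      · exact hx
      · exact hy
    have h3 : α.range ≤ closure ({α x, α y} : Set G) := by
      rintro _ ⟨z, rfl⟩
      obtain ⟨n, hn⟩ := ht (true, x, y, z)
      have h4 := (hrel n).gen
      rw [hn] at h4
      rcases h4 rfl with h | ⟨w, hw1, hw2⟩
      · exact absurd h (hxy n)
      · rw [← heq _ _ _ hw2, ← Set.image_pair, ← MonoidHom.map_closure]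
        exact mem_map_of_mem _ hw1
    exact Or.inl ⟨le_antisymm hH (h3.trans h2), α x, α y, le_antisymm h2 (hH.trans h3)⟩
  right
  by_cases h2 : ∃ u, α u ∈ H ∧ α u ≠ 1
  swap
  · refine ⟨1, IsOfFinOrder.one, fun h hh => ?_⟩
    obtain ⟨u, rfl⟩ := hH hh
    by_contra h3
    exact h2 ⟨u, hh, fun h4 => h3 (by rw [h4]; exact one_mem _)⟩
  obtain ⟨u, hu, hu1⟩ := h2
  have hun : ∀ n, u ∉ normalClosure (R n) := fun n h => hu1 (hα n h)
  obtain ⟨n, hn⟩ := ht (false, u, u, u)
  have h4 := (hrel n).tor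
  rw [hn] at h4
  have h5 : Tor (normalClosure (R (n + 1))) u := h4 rfl
  obtain ⟨g, hg1, hg2⟩ := hC.cent _ (hR (n + 1)) u (hun _) h5
  have h6 : ∀ j, n + 1 ≤ j → ∀ a, Com (normalClosure (R j)) a u → α a ∈ zpowers (α g) := by
    intro j hj
    induction j, hj using Nat.le_induction with
    | base =>
      intro a ha
      obtain ⟨k, hk⟩ := hg2 a ha
      rw [heq _ _ _ hk, map_zpow]
      exact zpow_mem_zpowers _ _
    | succ j hj ih =>
      intro a ha
      obtain ⟨k, hk0, hk⟩ := h5
      obtain ⟨s, hs1, hs2⟩ := (hrel j).per u (hun j) ⟨k, hk0, hmono hj hk⟩ a ha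
      rw [heq _ _ _ hs2]
      exact ih s hs1
  refine ⟨α g, ?_, fun h hh => ?_⟩
  · obtain ⟨k, hk0, hk⟩ := hg1
    exact (tor_iff α g).mp ⟨k, hk0, hα _ hk⟩
  · obtain ⟨a, rfl⟩ := hH hh
    by_contra h7
    refine h1 ⟨a, u, hh, hu, fun m hm => h7 ?_⟩
    exact h6 (max m (n + 1)) (le_max_right _ _) a (hmono (le_max_left _ _) hm)

end Pool.Agent.H668Z.SC
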