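import Pool.Agent.H668Z.SC.Cfg

set_option autoImplicit false

namespace Pool.Agent.H668Z.SC

/-- `t` or its inverse -/
def TT (G : Type) [Group G] (ε : Bool) : GZ G := if ε then tt G else (tt G)⁻¹

/-- The Bass-Serre tree of `G * Z` seen from the base vertex: `side γ` is the first edge of the
path to the vertex `γ G` and `len γ` is the length of that path. -/
structure SideData (G : Type) [Group G] where
  side : GZ G → Option (G × Bool)
  len : GZ G → ℕ
  none_iff : ∀ γ, side γ = none ↔ ∃ g : G, γ = Monoid.Coprod.inl g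
  side_mul_inl : ∀ γ (g : G), side (γ * Monoid.Coprod.inl g) = side γ
  len_mul_inl : ∀ γ (g : G), len (γ * Monoid.Coprod.inl g) = len γ
  side_inl_mul : ∀ γ (g : G), side (Monoid.Coprod.inl g * γ) =
    (side γ).map (fun σ => (g * σ.1, σ.2))
  len_inl_mul : ∀ γ (g : G), len (Monoid.Coprod.inl g * γ) = len γ
  side_T : ∀ (g : G) (ε : Bool), side (Monoid.Coprod.inl g * TT G ε) = some (g, ε)
  side_mul_T : ∀ γ (ε : Bool), side γ ≠ none → side (γ * TT G ε) ≠ none →
    side (γ * TT G ε) = side γ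
  len_step : ∀ γ (g : G) (ε : Bool), side γ = some (g, ε) →
    len ((Monoid.Coprod.inl g * TT G ε)⁻¹ * γ) + 1 = len γ
  len_T_mul : ∀ γ (ε : Bool), len (TT G ε * γ) ≤ len γ + 1
  len_zero : ∀ γ, len γ = 0 ↔ side γ = none
  through : ∀ γ γ', side γ ≠ none → side γ ≠ side γ' → side (γ⁻¹ * γ') = side γ⁻¹

def S_side : Prop := ∀ (G : Type) [Group G], Nonempty (SideData G)

end Pool.Agent.H668Z.SC
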