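import Pool.Agent.H668Z.SC.Cfg
import Pool.Agent.H668Z.SC.Lim

set_option autoImplicit false

/-!
# The tower: gluing and filling steps, and the limit group
-/

namespace Pool.Agent.H668Z.SC

open Subgroup Monoid

/-- the group which maps onto all the stages -/
abbrev Ga (E : Type) [Group E] : Type := Coprod E Ph

/-- the retraction which kills the generators of index at least `n` -/
def sg (E : Type) [Group E] (n : ℕ) : Ga E →* Ga E := Coprod.map (MonoidHom.id E) (rho n)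

variable {E : Type} [Group E]

lemma sg_inl (n : ℕ) (e : E) : sg E n (Coprod.inl e) = Coprod.inl e := by simp [sg]

lemma sg_inr (n : ℕ) (w : Ph) : sg E n (Coprod.inr w) = Coprod.inr (rho n w) := by simp [sg]

lemma sg_sg {m n : ℕ} (h : m ≤ n) (γ : Ga E) : sg E n (sg E m γ) = sg E m γ := by
  have : (sg E n).comp (sg E m) = sg E m := by
    apply Coprod.hom_ext
    · ext e
      simp [sg_inl]
    · apply MonoidHom.ext
      intro w
      simp [sg_inr, rho_rho h]
  exact DFunLike.congr_fun this γ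

lemma sg_mono {m n : ℕ} (h : m ≤ n) {γ : Ga E} (hγ : sg E m γ = γ) : sg E n γ = γ := by
  rw [← hγ, sg_sg h]

lemma sg_ev (γ : Ga E) : ∃ n, sg E n γ = γ := by
  induction γ using Coprod.induction_on with
  | inl e => exact ⟨0, sg_inl _ _⟩
  | inr w => obtain ⟨n, h⟩ := rho_ev w; exact ⟨n, by rw [sg_inr, h]⟩
  | mul x y hx hy =>
    obtain ⟨n, h⟩ := hx
    obtain ⟨m, h'⟩ := hy
    exact ⟨max n m, by rw [map_mul, sg_mono (le_max_left _ _) h, sg_mono (le_max_right _ _) h']⟩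

lemma sg_lift {n : ℕ} {a : ℕ → Ga E} (h : ∀ j, sg E n (a j) = a j) (w : Ph) :
    sg E n (FreeGroup.lift a w) = FreeGroup.lift a w := by
  rw [map_lift]
  simp only [h]

/-- the presentation of a vertex stabiliser -/
structure Sd (C : Set Ph → Prop) (n : ℕ) {G V : Type} [Group G] [MulAction G V]
    (π : Ga E →* G) (p : V) (a : ℕ → Ga E) (R : Set Ph) : Prop where
  supp : ∀ j, sg E n (a j) = a j
  triv : ∀ j, n ≤ j → a j = 1
  rsupp : ∀ r ∈ R, rho n r = r
  cl : C R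
  range : ∀ g : G, g • p = p ↔ ∃ w, π (FreeGroup.lift a w) = g
  ker : ∀ w, π (FreeGroup.lift a w) = 1 ↔
    w ∈ normalClosure (R ∪ FreeGroup.of '' {j | n ≤ j})

/-- the data of a stage -/
structure Dat (E : Type) [Group E] where
  N : Subgroup (Ga E)
  a : ℕ → Ga E
  b : ℕ → Ga E
  RA : Set Ph
  RB : Set Ph

/-- the invariant of the tower -/
def Ok (C : Set Ph → Prop) (n : ℕ) (D : Dat E) : Prop :=
  ∃ (G V : Type) (_ : Group G) (_ : MulAction G V) (X : GS V) (p q o : V) (π : Ga E →* G),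
    Cfg G X p q o ∧ Function.Surjective π ∧ π.ker = D.N ∧ (∀ γ, π (sg E n γ) = π γ) ∧
    (∀ e : E, π (Coprod.inl e) = 1 → e = 1) ∧ (∀ e : E, π (Coprod.inl e) • o = o) ∧
    Sd C n π p D.a D.RA ∧ Sd C n π q D.b D.RB

lemma Ok.swap {C : Set Ph → Prop} {n : ℕ} {D : Dat E} (h : Ok C n D) :
    Ok C n ⟨D.N, D.b, D.a, D.RB, D.RA⟩ := by
  obtain ⟨G, V, _, _, X, p, q, o, π, h1, h2, h3, h4, h5, h6, h7, h8⟩ := h
  exact ⟨G, V, inferInstance, inferInstance, X, q, p, o, π, h1.swap, h2, h3, h4, h5, h6, h8, h7⟩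

lemma ok_base (hb : S_base) {C : Set Ph → Prop} (hC : BoxM C) : ∃ D : Dat E, Ok C 0 D := by
  obtain ⟨V, _, X, p, q, o, h1, h2, h3, h4⟩ := hb E
  have hone : ∀ w : Ph, FreeGroup.lift (fun _ : ℕ => (1 : Ga E)) w = 1 := by
    intro w
    have : FreeGroup.lift (fun _ : ℕ => (1 : Ga E)) = 1 := by ext j; simp
    rw [this]; rfl
  have hsd : ∀ v : V, (∀ e : E, e • v = v → e = 1) →
      Sd C 0 (Coprod.fst : Ga E →* E) v (fun _ => 1) ∅ := by
    intro v hv
    refine ⟨fun _ => map_one _, fun _ _ => rfl, by simp, hC.base, ?_, ?_⟩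
    · intro g
      simp only [hone, map_one]
      exact ⟨fun h => ⟨1, (hv g h).symm⟩, fun ⟨_, h⟩ => by rw [← h, one_smul]⟩
    · intro w
      simp only [hone, map_one, true_iff]
      induction w using FreeGroup.induction_on with
      | C1 => exact one_mem _
      | of j => exact subset_normalClosure (Or.inr ⟨j, Nat.zero_le j, rfl⟩)
      | inv_of j ih => exact inv_mem ih
      | mul x y hx hy => exact mul_mem hx hy
  refine ⟨⟨(Coprod.fst : Ga E →* E).ker, fun _ => 1, fun _ => 1, ∅, ∅⟩, E, V, inferInstance,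
    inferInstance, X, p, q, o, Coprod.fst, h1, fun e => ⟨Coprod.inl e, by simp⟩, rfl, ?_,
    by simp, by simpa using h2, hsd p h3, hsd q h4⟩
  intro γ
  have : (Coprod.fst : Ga E →* E).comp (sg E 0) = Coprod.fst := by
    apply Coprod.hom_ext
    · ext e
      simp [sg_inl]
    · apply MonoidHom.ext
      intro w
      simp [sg_inr]
  exact DFunLike.congr_fun this γ

lemma sd_glue (hk : S_ker) {C : Set Ph → Prop} {n : ℕ} {G V W : Type} [Group G] [MulAction G V]
    [MulAction (GZ G) W] {π : Ga E →* G} {p : V} {a : ℕ → Ga E} {R : Set Ph}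
    (h : Sd C n π p a R) (π1 : Ga E →* GZ G) (h1 : ∀ γ, π1 (sg E n γ) = Coprod.inl (π γ))
    (s : Ga E) (hs : sg E (n + 1) s = s) (g : G)
    (hs2 : π1 s = tt G ∨ π1 s = (tt G)⁻¹ * Coprod.inl g) (p1 : W)
    (hp : ∀ γ : GZ G, γ • p1 = p1 ↔ γ ∈ closure
      ({x | ∃ c : G, c • p = p ∧ x = Coprod.inl c} ∪ {π1 s})) :
    Sd C (n + 1) π1 p1 (fun j => if j = n then s else a j) R := by
  have ha : ∀ j, j ≠ n → π1 (if j = n then s else a j) = Coprod.inl (π (a j)) := by
    intro j hj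
    rw [if_neg hj, ← h1, h.supp]
  refine ⟨?_, ?_, fun r hr => rho_mono (Nat.le_succ n) (h.rsupp r hr), h.cl, ?_, ?_⟩
  · intro j
    split_ifs with hj
    · exact hs
    · exact sg_mono (Nat.le_succ n) (h.supp j)
  · intro j hj
    rw [if_neg (by omega)]
    exact h.triv j (by omega)
  · intro γ
    rw [hp]
    constructor
    · intro hγ
      have : closure ({x | ∃ c : G, c • p = p ∧ x = Coprod.inl c} ∪ {π1 s}) ≤
          (π1.comp (FreeGroup.lift fun j => if j = n then s else a j)).range := by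
        rw [closure_le]
        rintro x (⟨c, hc, rfl⟩ | rfl)
        · obtain ⟨w, rfl⟩ := (h.range c).mp hc
          refine ⟨rho n w, ?_⟩
          rw [MonoidHom.comp_apply, lift_rho (a := a) (fun j hj => if_neg (by omega)) h.triv,
            ← h1, sg_lift h.supp]
        · exact ⟨FreeGroup.of n, by simp⟩
      exact this hγ
    · rintro ⟨w, rfl⟩
      induction w using FreeGroup.induction_on with
      | C1 => rw [map_one, map_one]; exact one_mem _
      | of j =>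
        rw [FreeGroup.lift_apply_of]
        by_cases hj : j = n
        · rw [if_pos hj]
          exact subset_closure (Or.inr rfl)
        · rw [ha j hj]
          exact subset_closure (Or.inl ⟨_, (h.range _).mpr ⟨FreeGroup.of j, by simp⟩, rfl⟩)
      | inv_of j ih => rw [map_inv, map_inv]; exact inv_mem ih
      | mul x y hx hy => rw [map_mul, map_mul]; exact mul_mem hx hy
  · intro w
    rw [map_lift, ← MonoidHom.mem_ker]
    rw [hk G n R (fun j => π (a j)) _ g (fun r hr => by rw [← h.rsupp r hr]; exact rho_mem n r)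
      (fun j hj => by rw [h.triv j hj, map_one]) ?_ ha (by simpa using hs2)]
    ext w
    rw [MonoidHom.mem_ker, ← map_lift, h.ker]

lemma ok_glue [Infinite E] (hadd : S_add) (hglue : S_glue) (hnot : S_notAB) (hk : S_ker)
    {C : Set Ph → Prop} {n : ℕ} {D : Dat E} (h : Ok C n D) (g : Ga E) :
    ∃ D' : Dat E, Ok C (n + 1) D' ∧ D'.RA = D.RA ∧ D'.RB = D.RB ∧
      (∀ γ ∈ D.N, sg E n γ ∈ D'.N) ∧ (∀ j, j < n → D'.a j = D.a j ∧ D'.b j = D.b j) ∧
      ∃ u v, (sg E n g)⁻¹ * (FreeGroup.lift D'.a u * FreeGroup.lift D'.b v) ∈ D'.N := by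
  obtain ⟨G, V, _, _, X, p, q, o, π, h1, h2, h3, h4, h5, h6, h7, h8⟩ := h
  have hinf : {g : G | g • o = o}.Infinite := by
    refine Set.infinite_of_injective_forall_mem (f := fun e : E => π (Coprod.inl e)) ?_ h6
    intro e e' he
    have := h5 (e * e'⁻¹) (by
      rw [map_mul, map_mul, map_inv, map_inv]
      exact mul_inv_eq_one.mpr he)
    exact mul_inv_eq_one.mp this
  obtain ⟨g1, hg1, hg2⟩ : ∃ g1 : G, (¬ ∃ a b : G, a • p = p ∧ b • q = q ∧ g1 = a * b) ∧
      ((∃ a b : G, a • p = p ∧ b • q = q ∧ π g = a * b) ∨ g1 = π g) := by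
    by_cases hg : ∃ a b : G, a • p = p ∧ b • q = q ∧ π g = a * b
    · obtain ⟨g1, hg1⟩ := hnot G V X p q o h1 hinf
      exact ⟨g1, hg1, Or.inl hg⟩
    · exact ⟨π g, hg, Or.inr rfl⟩
  obtain ⟨X', hX', hd⟩ := hadd G V X p q o h1 g1
  obtain ⟨W, _, Y, ι, c1, c2, c3, c4⟩ := hglue G V X' p q o hX' g1 hd hg1
  obtain ⟨γ1, rfl⟩ := h2 g1
  have hj : ∀ j, n ≤ j → π (Coprod.inr (FreeGroup.of j)) = 1 := by
    intro j hj
    rw [← h4, sg_inr, rho_of, if_neg (by omega), map_one, map_one]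
  let π1 : Ga E →* GZ G := Coprod.lift (Coprod.inl.comp (π.comp Coprod.inl))
    (FreeGroup.lift fun j => if j = n then tt G else Coprod.inl (π (Coprod.inr (FreeGroup.of j))))
  have e1 : ∀ e : E, π1 (Coprod.inl e) = Coprod.inl (π (Coprod.inl e)) := fun e => by simp [π1]
  have e2 : ∀ j, π1 (Coprod.inr (FreeGroup.of j)) =
      if j = n then tt G else Coprod.inl (π (Coprod.inr (FreeGroup.of j))) := fun j => by
    simp [π1]
  have e3 : ∀ γ, π1 (sg E n γ) = Coprod.inl (π γ) := by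
    have : π1.comp (sg E n) = Coprod.inl.comp π := by
      apply Coprod.hom_ext
      · ext e
        simp only [MonoidHom.comp_apply, sg_inl, e1]
      · ext j
        simp only [MonoidHom.comp_apply, sg_inr, rho_of]
        split_ifs with h
        · rw [e2, if_neg (by omega)]
        · rw [map_one, map_one, hj j (by omega), map_one]
    exact fun γ => DFunLike.congr_fun this γ
  have e4 : ∀ γ, π1 (sg E (n + 1) γ) = π1 γ := by
    have : π1.comp (sg E (n + 1)) = π1 := by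
      apply Coprod.hom_ext
      · ext e
        simp only [MonoidHom.comp_apply, sg_inl]
      · ext j
        simp only [MonoidHom.comp_apply, sg_inr, rho_of]
        split_ifs with h
        · rfl
        · rw [map_one, map_one, e2, if_neg (by omega), hj j (by omega), map_one]
    exact fun γ => DFunLike.congr_fun this γ
  have e5 : π1 (Coprod.inr (FreeGroup.of n)) = tt G := by rw [e2, if_pos rfl]
  have e6 : sg E (n + 1) (Coprod.inr (FreeGroup.of n)) = Coprod.inr (FreeGroup.of n) := by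
    rw [sg_inr, rho_of, if_pos (by omega)]
  have e7 : π1 ((Coprod.inr (FreeGroup.of n))⁻¹ * sg E n γ1) =
      (tt G)⁻¹ * Coprod.inl (π γ1) := by rw [map_mul, map_inv, e5, e3]
  have hsurj : Function.Surjective π1 := by
    intro x
    induction x using Coprod.induction_on with
    | inl m =>
      obtain ⟨γ, rfl⟩ := h2 m
      exact ⟨_, e3 γ⟩
    | inr k =>
      refine ⟨Coprod.inr (FreeGroup.of n) ^ (Multiplicative.toAdd k), ?_⟩
      rw [map_zpow, e5, tt, ← map_zpow]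
      congr 1
      rw [← ofAdd_zsmul]
      simp
    | mul x y hx hy =>
      obtain ⟨x, rfl⟩ := hx
      obtain ⟨y, rfl⟩ := hy
      exact ⟨x * y, map_mul _ _ _⟩
  have sA := sd_glue hk h7 π1 e3 _ e6 (π γ1) (Or.inl e5) (ι p) (by rw [e5]; exact c3)
  have sB := sd_glue hk h8 π1 e3 ((Coprod.inr (FreeGroup.of n))⁻¹ * sg E n γ1)
    (by rw [map_mul, map_inv, e6, sg_sg (Nat.le_succ n)]) (π γ1) (Or.inr e7) (ι q)
    (by rw [e7]; exact c4)
  refine ⟨⟨π1.ker, fun j => if j = n then Coprod.inr (FreeGroup.of n) else D.a j,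
    fun j => if j = n then (Coprod.inr (FreeGroup.of n))⁻¹ * sg E n γ1 else D.b j,
    D.RA, D.RB⟩, ⟨GZ G, W, inferInstance, inferInstance, Y, ι p, ι q, ι o, π1,
    c1, hsurj, rfl, e4, ?_, ?_, sA, sB⟩, rfl, rfl, ?_, ?_, ?_⟩
  · intro e he
    rw [e1] at he
    exact h5 e (Coprod.inl_injective (by rw [he, map_one]))
  · intro e
    rw [e1, ← c2, h6]
  · intro γ hγ
    rw [← h3] at hγ
    change π1 _ = 1
    rw [e3, hγ, map_one]
  · intro j hj
    exact ⟨if_neg (by omega), if_neg (by omega)⟩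
  · have : ∃ a b : GZ G, a • ι p = ι p ∧ b • ι q = ι q ∧ π1 (sg E n g) = a * b := by
      rcases hg2 with ⟨a, b, ha, hb, hab⟩ | hg
      · exact ⟨Coprod.inl a, Coprod.inl b, by rw [← c2, ha], by rw [← c2, hb],
          by rw [e3, hab, map_mul]⟩
      · refine ⟨tt G, (tt G)⁻¹ * Coprod.inl (π γ1), (c3 _).mpr (subset_closure (Or.inr rfl)),
          (c4 _).mpr (subset_closure (Or.inr rfl)), ?_⟩
        rw [e3, hg, mul_inv_cancel_left]
    obtain ⟨a, b, ha, hb, hab⟩ := this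
    obtain ⟨u, hu⟩ := (sA.range a).mp ha
    obtain ⟨v, hv⟩ := (sB.range b).mp hb
    refine ⟨u, v, ?_⟩
    change π1 _ = 1
    rw [map_mul, map_inv, map_mul, hu, hv, hab, inv_mul_cancel]

lemma ok_fill (hfill : S_fill) {C : Set Ph → Prop} (hC : BoxM C) {m : ℕ} {D : Dat E}
    (h : Ok C m D) (t : Bool × Ph × Ph × Ph) (ht : Fx m t) :
    ∃ D' : Dat E, Ok C m D' ∧ D'.a = D.a ∧ D'.b = D.b ∧ D'.RB = D.RB ∧ D.N ≤ D'.N ∧
      BoxRel t (normalClosure D.RA) (normalClosure D'.RA) := by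
  obtain ⟨G, V, _, _, X, p, q, o, π, h1, h2, h3, h4, h5, h6, h7, h8⟩ := h
  obtain ⟨F, hF, hF1, hK⟩ := hfill G V X p q o h1
  set α : Ph →* G := π.comp (FreeGroup.lift D.a) with hα
  have hα1 : ∀ w, α w = π (FreeGroup.lift D.a w) := fun w => rfl
  have hαr : ∀ w, α (rho m w) = α w := fun w => by
    rw [hα1, hα1, lift_rho (fun _ _ => rfl) h7.triv]
  have hl : ∀ f : F, ∃ w, α w = f := fun f => (h7.range f).mp (hF1 f f.2).2
  choose lf hlf using hl
  have := hF.to_subtype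
  obtain ⟨r, hr, hCr, hFr, hrel⟩ := hC.step D.RA m h7.cl h7.rsupp
    (Set.range fun f : F => rho m (lf f)) (Set.finite_range _) (by
      rintro _ ⟨f, rfl⟩ hf
      have := (h7.ker _).mpr (normalClosure_mono Set.subset_union_left hf)
      rw [← hα1, hαr, hlf] at this
      exact (hF1 f f.2).1 this) t ht
  have hR' : ∀ s ∈ insert r D.RA, rho m s = s := by
    rintro s (rfl | hs)
    · exact hr
    · exact h7.rsupp s hs
  have hmono : normalClosure (D.RA ∪ FreeGroup.of '' {j | m ≤ j}) ≤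
      normalClosure (insert r D.RA ∪ FreeGroup.of '' {j | m ≤ j}) :=
    normalClosure_mono (Set.union_subset_union_left _ (Set.subset_insert _ _))
  have hKm : ∀ w, α w ∈ (normalClosure (insert r D.RA)).map α ↔
      w ∈ normalClosure (insert r D.RA ∪ FreeGroup.of '' {j | m ≤ j}) := by
    intro w
    constructor
    · rintro ⟨k, hk1, hk2⟩
      have h9 : k⁻¹ * w ∈ normalClosure (D.RA ∪ FreeGroup.of '' {j | m ≤ j}) := by
        rw [← h7.ker, ← hα1, map_mul, map_inv, hk2, inv_mul_cancel]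
      have h10 : w = k * (k⁻¹ * w) := by group
      rw [h10]
      exact mul_mem (normalClosure_mono Set.subset_union_left hk1) (hmono h9)
    · intro hw
      exact ⟨rho m w, rho_ncl hR' hw, hαr w⟩
  obtain ⟨G', W, _, _, Y, φ, ι, c1, c2, c3, c4, c5, c6, c7⟩ :=
    hK ((normalClosure (insert r D.RA)).map α) (by
      rintro _ ⟨k, _, rfl⟩
      exact (h7.range _).mpr ⟨k, rfl⟩) (by
      rintro a ha _ ⟨k, hk, rfl⟩
      obtain ⟨w, rfl⟩ := (h7.range a).mp ha
      refine ⟨w * k * w⁻¹, Subgroup.Normal.conj_mem inferInstance k hk w, ?_⟩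
      rw [map_mul, map_mul, map_inv]
      rfl) (by
      intro f hf hfK
      have h9 : α (lf ⟨f, hf⟩) = f := hlf ⟨f, hf⟩
      rw [← h9, hKm] at hfK
      exact hFr _ ⟨⟨f, hf⟩, rfl⟩ (rho_ncl hR' hfK))
  have hrange : ∀ (v : V) (a : ℕ → Ga E), (∀ g : G, g • v = v ↔ ∃ w, π (FreeGroup.lift a w) = g) →
      ∀ g : G', g • ι v = ι v ↔ ∃ w, φ.comp π (FreeGroup.lift a w) = g := by
    intro v a ha g
    constructor
    · intro hg
      obtain ⟨g0, rfl, hg0⟩ := c4 g v hg
      obtain ⟨w, rfl⟩ := (ha g0).mp hg0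
      exact ⟨w, rfl⟩
    · rintro ⟨w, rfl⟩
      rw [MonoidHom.comp_apply, ← c3, (ha _).mpr ⟨w, rfl⟩]
  refine ⟨⟨(φ.comp π).ker, D.a, D.b, insert r D.RA, D.RB⟩, ⟨G', W, inferInstance, inferInstance, Y,
    ι p, ι q, ι o, φ.comp π, c1, c2.comp h2, rfl, ?_, ?_, ?_,
    ⟨h7.supp, h7.triv, hR', hCr, hrange p _ h7.range, ?_⟩,
    ⟨h8.supp, h8.triv, h8.rsupp, h8.cl, hrange q _ h8.range, ?_⟩⟩, rfl, rfl, rfl, ?_, hrel⟩
  · intro γ
    rw [MonoidHom.comp_apply, MonoidHom.comp_apply, h4]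
  · intro e he
    exact h5 e (c7 _ (h6 e) he)
  · intro e
    rw [MonoidHom.comp_apply, ← c3, h6]
  · intro w
    rw [MonoidHom.comp_apply, c5 _ ((h7.range _).mpr ⟨w, rfl⟩)]
    exact hKm w
  · intro w
    rw [MonoidHom.comp_apply, ← h8.ker]
    exact ⟨c6 _ ((h8.range _).mpr ⟨w, rfl⟩), fun h => by rw [h, map_one]⟩
  · intro γ hγ
    rw [← h3] at hγ
    change φ (π γ) = 1
    rw [hγ, map_one]

/-- the relation between consecutive stages -/
def Nx (n : ℕ) (g : Ga E) (t : Bool × Ph × Ph × Ph) (D D' : Dat E) : Prop :=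
  (∀ γ ∈ D.N, sg E n γ ∈ D'.N) ∧ (∀ j, j < n → D'.a j = D.a j ∧ D'.b j = D.b j) ∧
  (∃ u v, (sg E n g)⁻¹ * (FreeGroup.lift D'.a u * FreeGroup.lift D'.b v) ∈ D'.N) ∧
  BoxRel t (normalClosure D.RA) (normalClosure D'.RA) ∧
  BoxRel t (normalClosure D.RB) (normalClosure D'.RB)

lemma ok_step [Infinite E] (hadd : S_add) (hglue : S_glue) (hnot : S_notAB) (hk : S_ker)
    (hfill : S_fill) {C : Set Ph → Prop} (hC : BoxM C) {n : ℕ} {D : Dat E} (h : Ok C n D)
    (g : Ga E) (t : Bool × Ph × Ph × Ph) (ht : Fx (n + 1) t) :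
    ∃ D' : Dat E, Ok C (n + 1) D' ∧ Nx n g t D D' := by
  obtain ⟨D1, a1, a2, a3, a4, a5, u, v, a6⟩ := ok_glue hadd hglue hnot hk h g
  obtain ⟨D2, b1, b2, b3, b4, b5, b6⟩ := ok_fill hfill hC a1 t ht
  obtain ⟨D3, c1, c2, c3, c4, c5, c6⟩ := ok_fill hfill hC b1.swap t ht
  simp only at c2 c3 c4 c5 c6
  refine ⟨_, c1.swap, fun γ hγ => c5 (b5 (a4 γ hγ)), ?_, ⟨u, v, ?_⟩, ?_, ?_⟩
  · intro j hj
    simp only
    rw [c2, c3, b2, b3]
    exact a5 j hj
  · simp only
    rw [c2, c3, b2, b3]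
    exact c5 (b5 a6)
  · simp only
    rw [c4, ← a2]
    exact b6
  · simp only
    rw [← a3, ← b4]
    exact c6

theorem thm_embed (hbox : S_box) (hb : S_base) (hadd : S_add) (hglue : S_glue) (hnot : S_notAB)
    (hk : S_ker) (hfill : S_fill) : S_embed := by
  intro E _ _ _
  obtain ⟨C, hC⟩ := boxM_of_box hbox
  have : Countable Ph := by
    unfold Ph FreeGroup
    infer_instance
  have : Countable (Ga E) := by
    have : Countable (FreeMonoid (E ⊕ Ph)) := inferInstanceAs (Countable (List (E ⊕ Ph)))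
    exact Coprod.mk_surjective.countable
  obtain ⟨s, hs⟩ := exists_surjective_nat (Ga E × Bool × Ph × Ph × Ph)
  let g : ℕ → Ga E := fun n => (s n.unpair.1).1
  let t : ℕ → Bool × Ph × Ph × Ph := fun n => ((s n.unpair.1).2.1,
    rho (n + 1) (s n.unpair.1).2.2.1, rho (n + 1) (s n.unpair.1).2.2.2.1,
    rho (n + 1) (s n.unpair.1).2.2.2.2)
  have hfx : ∀ n, Fx (n + 1) (t n) := fun n =>
    ⟨rho_rho le_rfl _, rho_rho le_rfl _, rho_rho le_rfl _⟩
  have hg : ∀ γ, ∃ n, g n = γ ∧ sg E n γ = γ := by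
    intro γ
    obtain ⟨i, hi⟩ := hs (γ, true, 1, 1, 1)
    obtain ⟨n, hn⟩ := sg_ev γ
    exact ⟨Nat.pair i n, by simp only [g, Nat.unpair_pair, hi],
      sg_mono (Nat.right_le_pair i n) hn⟩
  have ht : ∀ x, ∃ n, t n = x := by
    rintro ⟨c, x, y, z⟩
    obtain ⟨i, hi⟩ := hs (1, c, x, y, z)
    obtain ⟨n1, h1⟩ := rho_ev x
    obtain ⟨n2, h2⟩ := rho_ev y
    obtain ⟨n3, h3⟩ := rho_ev z
    have := Nat.right_le_pair i (n1 + n2 + n3)
    refine ⟨Nat.pair i (n1 + n2 + n3), ?_⟩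
    simp only [t, Nat.unpair_pair, hi]
    rw [rho_mono (by omega) h1, rho_mono (by omega) h2, rho_mono (by omega) h3]
  obtain ⟨D0, hD0⟩ := ok_base (E := E) hb hC
  have hstep : ∀ n (D : {D : Dat E // Ok C n D}), ∃ D' : {D : Dat E // Ok C (n + 1) D},
      Nx n (g n) (t n) D.1 D'.1 := by
    intro n D
    obtain ⟨D', h1, h2⟩ := ok_step hadd hglue hnot hk hfill hC D.2 (g n) (t n) (hfx n)
    exact ⟨⟨D', h1⟩, h2⟩
  choose nx hnx using hstep
  let sq : ∀ n, {D : Dat E // Ok C n D} := fun n => Nat.rec ⟨D0, hD0⟩ nx n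
  let D : ℕ → Dat E := fun n => (sq n).1
  have hok : ∀ n, Ok C n (D n) := fun n => (sq n).2
  have hN : ∀ n, Nx n (g n) (t n) (D n) (D (n + 1)) := fun n => hnx n (sq n)
  have hnorm : ∀ n, (D n).N.Normal := by
    intro n
    obtain ⟨G, V, _, _, X, p, q, o, π, h1, h2, h3, h4, h5, h6, h7, h8⟩ := hok n
    rw [← h3]
    infer_instance
  let N : Subgroup (Ga E) :=
    { carrier := {γ | ∃ n0, ∀ m, n0 ≤ m → γ ∈ (D m).N}
      mul_mem' := by
        rintro x y ⟨n, hn⟩ ⟨m, hm⟩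
        exact ⟨max n m, fun k hk => mul_mem (hn k (le_of_max_le_left hk))
          (hm k (le_of_max_le_right hk))⟩
      one_mem' := ⟨0, fun _ _ => one_mem _⟩
      inv_mem' := by
        rintro x ⟨n, hn⟩
        exact ⟨n, fun k hk => inv_mem (hn k hk)⟩ }
  have : N.Normal := ⟨by
    rintro x ⟨n, hn⟩ y
    exact ⟨n, fun k hk => (hnorm k).conj_mem x (hn k hk) y⟩⟩
  have hmem : ∀ n γ, sg E n γ = γ → γ ∈ (D n).N → γ ∈ N := by
    intro n γ h1 h2
    refine ⟨n, fun m hm => ?_⟩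
    induction m, hm using Nat.le_induction with
    | base => exact h2
    | succ m hm ih =>
      have := (hN m).1 γ ih
      rwa [sg_mono hm h1] at this
  have hside : ∀ (a : ℕ → ℕ → Ga E) (R : ℕ → Set Ph), (∀ n j, j < n → a (n + 1) j = a n j) →
      (∀ n j, sg E n (a n j) = a n j) → (∀ n j, n ≤ j → a n j = 1) →
      (∀ n, ∀ r ∈ R n, rho n r = r ∧ FreeGroup.lift (a n) r ∈ (D n).N) → (∀ n, C (R n)) →
      (∀ n, BoxRel (t n) (normalClosure (R n)) (normalClosure (R (n + 1)))) →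
      ∃ A : Subgroup (Ga E ⧸ N), Mon A ∧
        ∀ n w, QuotientGroup.mk' N (FreeGroup.lift (a n) w) ∈ A := by
    intro a R h1 h2 h3 h4 h5 h6
    have h7 : ∀ n j, j < n → a (j + 1) j = a n j := by
      intro n j hj
      induction n, hj using Nat.le_induction with
      | base => rfl
      | succ n hn ih => rw [h1 n j hn, ih]
    have h8 : ∀ n w, FreeGroup.lift (fun j => a (j + 1) j) (rho n w) = FreeGroup.lift (a n) w :=
      fun n w => lift_rho (fun j hj => h7 n j hj) (h3 n) w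
    refine ⟨((QuotientGroup.mk' N).comp (FreeGroup.lift fun j => a (j + 1) j)).range,
      limit_mon hC R t h5 h6 ht _ ?_, fun n w => ⟨rho n w, by rw [MonoidHom.comp_apply, h8]⟩⟩
    intro n
    apply normalClosure_le_normal
    intro r hr
    change QuotientGroup.mk' N _ = 1
    rw [QuotientGroup.mk'_apply, QuotientGroup.eq_one_iff, ← (h4 n r hr).1, h8]
    exact hmem n _ (sg_lift (h2 n) r) (h4 n r hr).2
  have hfacts : ∀ n, (∀ e : E, Coprod.inl e ∈ (D n).N → e = 1) ∧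
      ((∀ j, sg E n ((D n).a j) = (D n).a j) ∧ (∀ j, n ≤ j → (D n).a j = 1) ∧
        (∀ r ∈ (D n).RA, rho n r = r ∧ FreeGroup.lift (D n).a r ∈ (D n).N) ∧ C (D n).RA) ∧
      ((∀ j, sg E n ((D n).b j) = (D n).b j) ∧ (∀ j, n ≤ j → (D n).b j = 1) ∧
        (∀ r ∈ (D n).RB, rho n r = r ∧ FreeGroup.lift (D n).b r ∈ (D n).N) ∧ C (D n).RB) := by
    intro n
    obtain ⟨G, V, _, _, X, p, q, o, π, h1, h2, h3, h4, h5, h6, h7, h8⟩ := hok n
    rw [← h3]
    exact ⟨h5, ⟨h7.supp, h7.triv, fun r hr => ⟨h7.rsupp r hr,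
      (h7.ker r).mpr (subset_normalClosure (Or.inl hr))⟩, h7.cl⟩,
      ⟨h8.supp, h8.triv, fun r hr => ⟨h8.rsupp r hr,
      (h8.ker r).mpr (subset_normalClosure (Or.inl hr))⟩, h8.cl⟩⟩
  obtain ⟨A, hA1, hA2⟩ := hside (fun n => (D n).a) (fun n => (D n).RA)
    (fun n j hj => ((hN n).2.1 j hj).1) (fun n => (hfacts n).2.1.1) (fun n => (hfacts n).2.1.2.1)
    (fun n => (hfacts n).2.1.2.2.1) (fun n => (hfacts n).2.1.2.2.2) (fun n => (hN n).2.2.2.1)
  obtain ⟨B, hB1, hB2⟩ := hside (fun n => (D n).b) (fun n => (D n).RB)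
    (fun n j hj => ((hN n).2.1 j hj).2) (fun n => (hfacts n).2.2.1) (fun n => (hfacts n).2.2.2.1)
    (fun n => (hfacts n).2.2.2.2.1) (fun n => (hfacts n).2.2.2.2.2) (fun n => (hN n).2.2.2.2)
  refine ⟨Ga E ⧸ N, inferInstance, (QuotientGroup.mk' N).comp Coprod.inl, A, B, ?_, ?_, hA1, hB1⟩
  · rw [injective_iff_map_eq_one]
    intro e he
    rw [MonoidHom.comp_apply, QuotientGroup.mk'_apply, QuotientGroup.eq_one_iff] at he
    obtain ⟨n, hn⟩ := he
    exact (hfacts n).1 e (hn n le_rfl)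
  · intro x
    obtain ⟨γ, rfl⟩ := QuotientGroup.mk'_surjective N x
    obtain ⟨n, hn1, hn2⟩ := hg γ
    obtain ⟨u, v, huv⟩ := (hN n).2.2.1
    rw [hn1, hn2] at huv
    have h1 := hmem (n + 1) _ (by
      rw [map_mul, map_inv, map_mul, sg_mono (Nat.le_succ n) hn2, sg_lift (hfacts (n + 1)).2.1.1,
        sg_lift (hfacts (n + 1)).2.2.1]) huv
    refine ⟨_, hA2 (n + 1) u, _, hB2 (n + 1) v, ?_⟩
    rw [← map_mul, eq_comm, QuotientGroup.mk'_apply, QuotientGroup.mk'_apply, QuotientGroup.eq]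
    exact h1

end Pool.Agent.H668Z.SC
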