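import Pool.Agent.H668Z.SC.Basic

set_option autoImplicit false
set_option linter.unusedSectionVars false
set_option linter.unusedVariables false

namespace Pool.Agent.H668Z.SC

open GS

variable {V G : Type*} [Group G] [MulAction G V]

/-- the action is by isometries -/
def Iso (X : GS V) (G : Type*) [Group G] [MulAction G V] : Prop :=
  ∀ (g : G) (x y : V), X.d (g • x) (g • y) = X.d x y

section iso

variable {X : GS V}

lemma Iso.d_inv (h : Iso X G) (g : G) (x y : V) : X.d (g⁻¹ • x) y = X.d x (g • y) := by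
  rw [← h g, smul_inv_smul]

lemma Iso.btw (h : Iso X G) (g : G) {a c b : V} : X.Btw (g • a) (g • c) (g • b) ↔ X.Btw a c b := by
  unfold GS.Btw; rw [h, h, h]

lemma Iso.av (h : Iso X G) (g : G) {c u w : V} {n : ℕ} (ha : X.Av c n u w) :
    X.Av (g • c) n (g • u) (g • w) := by
  induction ha with
  | refl n u h1 => exact Av.refl _ _ (fun h2 => h1 (smul_left_cancel g h2))
  | step n u z w h1 h2 _ ih =>
    exact Av.step _ _ (g • z) _ (fun h3 => h1 (smul_left_cancel g h3)) (by rw [h]; exact h2) ih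

lemma Iso.pr (h : Iso X G) (g : G) {c a u : V} : X.Pr (g • c) (g • a) (g • u) ↔ X.Pr c a u := by
  unfold Pr; rw [h, h, h]

lemma Iso.dle (h : Iso X G) (g : G) {c a b : V} {n : ℕ} (hd : X.Dle c a b n) :
    X.Dle (g • c) (g • a) (g • b) n := by
  intro u w hu hw
  have hu' : X.Pr c a (g⁻¹ • u) := by rw [← h.pr g, smul_inv_smul]; exact hu
  have hw' : X.Pr c b (g⁻¹ • w) := by rw [← h.pr g, smul_inv_smul]; exact hw
  have := h.av g (hd _ _ hu' hw')
  rwa [smul_inv_smul, smul_inv_smul] at this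

lemma Iso.dle_iff (h : Iso X G) (g : G) {c a b : V} {n : ℕ} :
    X.Dle (g • c) (g • a) (g • b) n ↔ X.Dle c a b n := by
  refine ⟨fun hd => ?_, h.dle g⟩
  have := h.dle g⁻¹ hd
  rwa [inv_smul_smul, inv_smul_smul, inv_smul_smul] at this

lemma pr_of_btw {c v b u : V} (hb : X.Btw c v b) (hu : X.Pr c v u) : X.Pr c b u := by
  obtain ⟨h1, h2⟩ := hu
  unfold GS.Btw at hb
  have := X.tri u v b
  have := X.tri c u b
  exact ⟨h1, by omega⟩

lemma dle_of_btw {c v a b : V} {n : ℕ} (hb : X.Btw c v b) (h : X.Dle c a b n) : X.Dle c a v n :=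
  fun u w hu hw => h u w hu (pr_of_btw hb hw)

lemma dle_apex_left (c b : V) (n : ℕ) : X.Dle c c b n := by
  intro u w hu _
  have := hu.2
  rw [X.d_self] at this
  omega

lemma ne_of_not_dle {c a b : V} {n : ℕ} (h : ¬ X.Dle c a b n) : a ≠ c ∧ b ≠ c := by
  constructor
  · rintro rfl; exact h (dle_apex_left _ _ _)
  · rintro rfl; exact h (dle_apex_left _ _ _).symm

end iso

/-- bounded geodesic image at the points of `C` -/
def BGI (X : GS V) (C : Set V) (θ : ℕ) : Prop :=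
  ∀ c ∈ C, ∀ a b, ¬ X.Btw a c b → X.Dle c a b θ

section bgi

variable {X : GS V} {C : Set V} {θ : ℕ}

lemma BGI.btw (hB : BGI X C θ) {c a b : V} (hc : c ∈ C) {T : ℕ} (hT : θ ≤ T)
    (h : ¬ X.Dle c a b T) : X.Btw a c b := by
  by_contra h1
  exact h ((hB c hc a b h1).mono hT)

/-- all geodesics pass through an apex with a large angle -/
lemma BGI.all (hB : BGI X C θ) {c a b z : V} (hc : c ∈ C) (h : ¬ X.Dle c a b (2 * θ))
    (hz : X.Btw a z b) : X.Btw a z c ∨ X.Btw c z b := by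
  have h0 := hB.btw hc (by omega) h
  by_cases hzc : z = c
  · subst hzc; exact Or.inl (btw_right _ _)
  by_cases h1 : X.Btw a c z
  · right; unfold GS.Btw at *; omega
  by_cases h2 : X.Btw z c b
  · left; unfold GS.Btw at *; omega
  exfalso
  exact h (((hB c hc _ _ h1).trans hzc (hB c hc _ _ h2)).mono (by omega))

/-- exact projections -/
lemma BGI.pr (hB : BGI X C θ) {v a b c u : V} (hv : v ∈ C) (h : ¬ X.Dle v a b (2 * θ))
    (hc : X.Btw a c v) (hcv : c ≠ v) (hu : X.Pr c b u) : X.Pr c v u := by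
  have h0 := hB.btw hv (by omega) h
  obtain ⟨h1, h2⟩ := hu
  have t1 := X.tri a c u
  have t2 := X.tri a u b
  have t3 := X.tri c v b
  have t4 := X.tri a c b
  have t5 := X.tri c u v
  have t6 := X.tri a v u
  have t7 := X.tri u v b
  have hp := d_pos (X := X) hcv
  have hz : X.Btw a u b := by unfold GS.Btw at *; omega
  rcases hB.all hv h hz with h3 | h3
  · exact ⟨h1, by unfold GS.Btw at *; omega⟩
  · have s := X.symm u v
    exact ⟨h1, by unfold GS.Btw at *; omega⟩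

end bgi

/-- A spinning rotating family. -/
structure Rot (X : GS V) (C : Set V) (R : V → Subgroup G) (θ L : ℕ) : Prop where
  iso : Iso X G
  smul_mem : ∀ (g : G) (c : V), c ∈ C → g • c ∈ C
  fix : ∀ c ∈ C, ∀ r ∈ R c, r • c = c
  conj : ∀ (g : G), ∀ c ∈ C, ∀ r ∈ R c, g * r * g⁻¹ ∈ R (g • c)
  bgi : BGI X C θ
  spin : ∀ c ∈ C, ∀ y, y ≠ c → ∀ r ∈ R c, r ≠ 1 → ¬ X.Dle c y (r • y) (L + 2 * θ)
  big : 4 * θ ≤ L

/-- the subgroup generated by all rotations -/
def rotSub (C : Set V) (R : V → Subgroup G) : Subgroup G :=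
  Subgroup.closure {g | ∃ c ∈ C, g ∈ R c}

section defs

variable (X : GS V) (C : Set V) (R : V → Subgroup G) (x : V)

def Nk (k : ℕ) : Subgroup G := Subgroup.closure {g | ∃ c ∈ C, X.d x c < k ∧ g ∈ R c}

def Near (k : ℕ) (y : V) (j : ℕ) : Prop := ∃ n ∈ Nk X C R x k, X.d (n • x) y ≤ j

def Far (k : ℕ) (y : V) (j : ℕ) : Prop := ∀ n ∈ Nk X C R x k, j ≤ X.d (n • x) y

def Ak (k : ℕ) : Set V := {c | c ∈ C ∧ Near X C R x k c k ∧ Far X C R x k c k}

def RF (k : ℕ) : V → List (V × G) → Prop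
  | _, [] => True
  | a, p :: w => a ≠ p.1 ∧ p.1 ∈ Ak X C R x k ∧ p.2 ∈ R p.1 ∧ p.2 ≠ 1 ∧ RF k p.1 w

def Claim (θ k : ℕ) : Prop :=
  ∀ c ∈ C, ∀ a b j, k ≤ j → Far X C R x k c j → Near X C R x k a j → Near X C R x k b j →
    X.Dle c a b (2 * θ)

def Sh (k : ℕ) (v y : V) : Prop :=
  Near X C R x k v k ∧
    ∀ c ∈ Ak X C R x k, c ≠ v → y ≠ c ∧ ∀ u, X.Pr c y u → X.Pr c v u

end defs

def lastA : V → List (V × G) → V
  | a, [] => a
  | _, p :: w => lastA p.1 w

def prW (w : List (V × G)) : G := (w.map Prod.snd).prod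

@[simp] lemma prW_nil : prW ([] : List (V × G)) = 1 := rfl

@[simp] lemma prW_cons (p : V × G) (w : List (V × G)) : prW (p :: w) = p.2 * prW w := by
  simp [prW]

variable {X : GS V} {C : Set V} {R : V → Subgroup G} {θ L : ℕ} {x : V}

lemma Nk_mono {k k' : ℕ} (h : k ≤ k') : Nk X C R x k ≤ Nk X C R x k' := by
  apply Subgroup.closure_mono
  rintro g ⟨c, hc, h1, h2⟩
  exact ⟨c, hc, by omega, h2⟩

lemma Nk_le (k : ℕ) : Nk X C R x k ≤ rotSub C R := by
  apply Subgroup.closure_mono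
  rintro g ⟨c, hc, _, h2⟩
  exact ⟨c, hc, h2⟩

lemma mem_rotSub {c : V} (hc : c ∈ C) {r : G} (hr : r ∈ R c) : r ∈ rotSub C R :=
  Subgroup.subset_closure ⟨c, hc, hr⟩

lemma exists_Nk (X : GS V) (x : V) {g : G} (hg : g ∈ rotSub C R) : ∃ k, g ∈ Nk X C R x k := by
  induction hg using Subgroup.closure_induction with
  | mem g hg =>
    obtain ⟨c, hc, h⟩ := hg
    exact ⟨X.d x c + 1, Subgroup.subset_closure ⟨c, hc, by omega, h⟩⟩
  | one => exact ⟨0, one_mem _⟩
  | mul a b _ _ ha hb =>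
    obtain ⟨k, hk⟩ := ha
    obtain ⟨l, hl⟩ := hb
    exact ⟨max k l, mul_mem (Nk_mono (le_max_left _ _) hk) (Nk_mono (le_max_right _ _) hl)⟩
  | inv a _ ha =>
    obtain ⟨k, hk⟩ := ha
    exact ⟨k, inv_mem hk⟩

lemma Nk_zero {g : G} (hg : g ∈ Nk X C R x 0) : g = 1 := by
  have : Nk X C R x 0 = ⊥ := by
    unfold Nk
    rw [Subgroup.closure_eq_bot_iff]
    rintro g ⟨c, _, h, _⟩
    omega
  rwa [this, Subgroup.mem_bot] at hg

namespace Rot

variable (H : Rot X C R θ L)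
include H

lemma normal : (rotSub C R).Normal := by
  constructor
  intro n hn g
  induction hn using Subgroup.closure_induction with
  | mem n hn =>
    obtain ⟨c, hc, h⟩ := hn
    exact mem_rotSub (H.smul_mem g c hc) (H.conj g c hc n h)
  | one => simp
  | mul a b _ _ ha hb =>
    have := mul_mem ha hb
    rwa [show g * a * g⁻¹ * (g * b * g⁻¹) = g * (a * b) * g⁻¹ by group] at this
  | inv a _ ha =>
    have := inv_mem ha
    rwa [show (g * a * g⁻¹)⁻¹ = g * a⁻¹ * g⁻¹ by group] at this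

lemma smul_notMem (g : G) {y : V} (hy : y ∉ C) : g • y ∉ C := by
  intro h
  have := H.smul_mem g⁻¹ _ h
  rw [inv_smul_smul] at this
  exact hy this

lemma near_smul {k j : ℕ} {y : V} {n : G} (hn : n ∈ Nk X C R x k) (h : Near X C R x k y j) :
    Near X C R x k (n • y) j := by
  obtain ⟨m, hm, h⟩ := h
  exact ⟨n * m, mul_mem hn hm, by rw [mul_smul, H.iso]; exact h⟩

lemma far_smul {k j : ℕ} {y : V} {n : G} (hn : n ∈ Nk X C R x k) (h : Far X C R x k y j) :
    Far X C R x k (n • y) j := by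
  intro m hm
  have := h (n⁻¹ * m) (mul_mem (inv_mem hn) hm)
  rwa [mul_smul, H.iso.d_inv] at this

lemma Ak_smul {k : ℕ} {c : V} {n : G} (hn : n ∈ Nk X C R x k) (h : c ∈ Ak X C R x k) :
    n • c ∈ Ak X C R x k :=
  ⟨H.smul_mem n c h.1, H.near_smul hn h.2.1, H.far_smul hn h.2.2⟩

lemma mem_Nk_of_near {k : ℕ} {c : V} (hc : c ∈ C) {n : G} (hn : n ∈ Nk X C R x k)
    (hd : X.d (n • x) c < k) {r : G} (hr : r ∈ R c) : r ∈ Nk X C R x k := by
  have h1 : n⁻¹ * r * n⁻¹⁻¹ ∈ Nk X C R x k := by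
    refine Subgroup.subset_closure ⟨n⁻¹ • c, H.smul_mem _ _ hc, ?_, H.conj _ c hc r hr⟩
    rw [← H.iso n, smul_inv_smul]
    exact hd
  have h2 := mul_mem (mul_mem hn h1) (inv_mem hn)
  rwa [show n * (n⁻¹ * r * n⁻¹⁻¹) * n⁻¹ = r by group] at h2

lemma mem_Nk_succ {k : ℕ} {c : V} (hc : c ∈ Ak X C R x k) {r : G} (hr : r ∈ R c) :
    r ∈ Nk X C R x (k + 1) := by
  obtain ⟨n, hn, hd⟩ := hc.2.1
  exact H.mem_Nk_of_near hc.1 (Nk_mono (by omega) hn) (by omega) hr

lemma prW_mem {k : ℕ} : ∀ (w : List (V × G)) (a : V), RF X C R x k a w →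
    prW w ∈ Nk X C R x (k + 1)
  | [], _, _ => one_mem _
  | p :: w, _, h => by
    rw [prW_cons]
    exact mul_mem (H.mem_Nk_succ h.2.1 h.2.2.1) (prW_mem w p.1 h.2.2.2.2)

omit H in
lemma RF_base {k : ℕ} {a b : V} (hb : b ∉ C) : ∀ (w : List (V × G)), RF X C R x k a w →
    RF X C R x k b w
  | [], _ => trivial
  | p :: w, h => ⟨fun h1 => hb (h1 ▸ h.2.1.1), h.2⟩

omit H in
lemma lastA_mem {k : ℕ} : ∀ (w : List (V × G)) (a : V), a ∈ Ak X C R x k → RF X C R x k a w →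
    lastA a w ∈ Ak X C R x k
  | [], _, ha, _ => ha
  | p :: w, _, _, h => lastA_mem w p.1 h.2.1 h.2.2.2.2

lemma RF_conj {k : ℕ} {n : G} (hn : n ∈ Nk X C R x k) : ∀ (w : List (V × G)) (a : V),
    RF X C R x k a w → ∃ w', RF X C R x k (n • a) w' ∧ prW w' = n * prW w * n⁻¹
  | [], _, _ => ⟨[], trivial, by simp⟩
  | p :: w, a, h => by
    obtain ⟨w', h1, h2⟩ := RF_conj hn w p.1 h.2.2.2.2
    refine ⟨(n • p.1, n * p.2 * n⁻¹) :: w', ⟨fun h3 => h.1 (smul_left_cancel n h3),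
      H.Ak_smul hn h.2.1, H.conj n _ h.2.1.1 _ h.2.2.1, ?_, h1⟩, ?_⟩
    · intro h3
      apply h.2.2.2.1
      have : p.2 = n⁻¹ * (n * p.2 * n⁻¹) * n := by group
      rw [this]
      simp only at h3
      rw [h3]; group
    · rw [prW_cons, prW_cons, h2]; group

/-- normal form at level `k` -/
lemma normal_form (hx : x ∉ C) {k : ℕ} {g : G} (hg : g ∈ Nk X C R x (k + 1)) :
    ∃ w n, RF X C R x k x w ∧ n ∈ Nk X C R x k ∧ g = prW w * n := by
  have key : ∀ c ∈ C, X.d x c < k + 1 → ∀ s ∈ R c, ∀ g : G,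
      (∃ w n, RF X C R x k x w ∧ n ∈ Nk X C R x k ∧ g = prW w * n) →
      ∃ w n, RF X C R x k x w ∧ n ∈ Nk X C R x k ∧ s * g = prW w * n := by
    rintro c hc hd s hs g ⟨w, n, hw, hn, rfl⟩
    by_cases h1 : s ∈ Nk X C R x k
    · obtain ⟨w', h2, h3⟩ := H.RF_conj h1 w x hw
      exact ⟨w', s * n, RF_base hx w' h2, mul_mem h1 hn, by rw [h3]; group⟩
    have hcA : c ∈ Ak X C R x k := by
      refine ⟨hc, ⟨1, one_mem _, by rw [one_smul]; omega⟩, fun m hm => ?_⟩
      by_contra h2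
      exact h1 (H.mem_Nk_of_near hc hm (by omega) hs)
    have hs1 : s ≠ 1 := by rintro rfl; exact h1 (one_mem _)
    have hxc : x ≠ c := fun h => hx (h ▸ hc)
    cases w with
    | nil => exact ⟨[(c, s)], n, ⟨hxc, hcA, hs, hs1, trivial⟩, hn, by simp⟩
    | cons p w =>
      by_cases h2 : c = p.1
      · by_cases h3 : s * p.2 = 1
        · refine ⟨w, n, RF_base hx w hw.2.2.2.2, hn, ?_⟩
          rw [prW_cons, ← mul_assoc, ← mul_assoc, h3, one_mul]
        · refine ⟨(c, s * p.2) :: w, n, ⟨hxc, hcA, mul_mem hs (h2 ▸ hw.2.2.1), h3,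
            h2 ▸ hw.2.2.2.2⟩, hn, ?_⟩
          simp only [prW_cons, mul_assoc]
      · refine ⟨(c, s) :: p :: w, n, ⟨hxc, hcA, hs, hs1, h2, hw.2⟩, hn, ?_⟩
        simp only [prW_cons, mul_assoc]
  induction hg using Subgroup.closure_induction_left with
  | one => exact ⟨[], 1, trivial, one_mem _, by simp⟩
  | mul_left s hs g _ ih =>
    obtain ⟨c, hc, hd, hs⟩ := hs
    exact key c hc hd s hs g ih
  | inv_mul_cancel s hs g _ ih =>
    obtain ⟨c, hc, hd, hs⟩ := hs
    exact key c hc hd s⁻¹ (inv_mem hs) g ih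

lemma spin' {c : V} (hc : c ∈ C) {a y : V} (hy : y ≠ c) (h : X.Dle c a y (2 * θ)) (ha : a ≠ c)
    {r : G} (hr : r ∈ R c) (hr1 : r ≠ 1) : ¬ X.Dle c a (r • y) L := by
  intro h1
  exact H.spin c hc y hy r hr hr1 ((h.symm.trans ha h1).mono (by omega))

omit H in
lemma sh_refl {k : ℕ} {v : V} (hv : Near X C R x k v k) : Sh X C R x k v v :=
  ⟨hv, fun _ _ h => ⟨h.symm, fun _ hu => hu⟩⟩

omit H in
lemma sh_dle {k : ℕ} (hC : Claim X C R x θ k) {v y v' y' c : V} (h : Sh X C R x k v y)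
    (h' : Sh X C R x k v' y') (hc : c ∈ Ak X C R x k) (hv : c ≠ v) (hv' : c ≠ v') :
    X.Dle c y y' (2 * θ) := by
  have h1 := hC c hc.1 v v' k le_rfl hc.2.2 h.1 h'.1
  exact fun u w hu hw => h1 u w ((h.2 c hc hv).2 u hu) ((h'.2 c hc hv').2 w hw)

lemma sh_step {k : ℕ} (hC : Claim X C R x θ k) {v y c : V} (h : Sh X C R x k v y)
    (hc : c ∈ Ak X C R x k) (hv : c ≠ v) {r : G} (hr : r ∈ R c) (hr1 : r ≠ 1) :
    Sh X C R x k c (r • y) := by
  refine ⟨hc.2.1, fun c' hc' hne => ?_⟩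
  have h1 := sh_dle hC (sh_refl hc'.2.1) h hc hne.symm hv
  have h2 := H.spin' hc.1 (h.2 c hc hv).1 h1 hne hr hr1
  have h3 : ¬ X.Dle c c' (r • y) (2 * θ) := fun h4 => h2 (h4.mono (by have := H.big; omega))
  refine ⟨?_, fun u hu => H.bgi.pr hc.1 h3 (btw_left _ _) hne hu⟩
  intro h4
  have h5 := H.bgi.btw hc.1 (by omega) h3
  rw [h4] at h5
  unfold GS.Btw at h5
  have := d_pos (X := X) hne
  rw [X.d_self] at h5
  omega

lemma sh_forward {k : ℕ} (hC : Claim X C R x θ k) {b : V} (hb : Near X C R x k b k) :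
    ∀ (w : List (V × G)) (c : V), RF X C R x k c w → lastA c w ≠ b →
      ∃ v, c ≠ v ∧ Sh X C R x k v (prW w • b)
  | [], c, _, h => ⟨b, h, by rw [prW_nil, one_smul]; exact sh_refl hb⟩
  | p :: w, c, h, hl => by
    obtain ⟨v, hv, hs⟩ := sh_forward hC hb w p.1 h.2.2.2.2 hl
    refine ⟨p.1, h.1, ?_⟩
    rw [prW_cons, mul_smul]
    exact H.sh_step hC hs h.2.1 hv h.2.2.1 h.2.2.2.1

lemma sh_backward {k : ℕ} (hC : Claim X C R x θ k) :
    ∀ (w : List (V × G)) (v y : V), RF X C R x k v w → Sh X C R x k v y →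
      Sh X C R x k (lastA v w) ((prW w)⁻¹ • y)
  | [], v, y, _, h => by rw [prW_nil, inv_one, one_smul]; exact h
  | p :: w, v, y, h, hs => by
    have h1 := H.sh_step hC hs h.2.1 h.1.symm (inv_mem h.2.2.1) (inv_ne_one.mpr h.2.2.2.1)
    have h2 := sh_backward hC w p.1 _ h.2.2.2.2 h1
    rw [prW_cons, mul_inv_rev, mul_smul]
    exact h2

/-- the first pivot -/
lemma pivot (hx : x ∉ C) {k : ℕ} (hC : Claim X C R x θ k) {p : V × G} {w : List (V × G)}
    (h : RF X C R x k x (p :: w)) {n : G} (hn : n ∈ Nk X C R x k) {a : V}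
    (ha : Near X C R x k a k) (hap : a ≠ p.1) :
    X.Dle p.1 a ((prW w * n) • x) (2 * θ) ∧ ¬ X.Dle p.1 a ((prW (p :: w) * n) • x) L := by
  have hb : Near X C R x k (n • x) k := ⟨n, hn, by rw [X.d_self]; omega⟩
  have hl : lastA p.1 w ≠ n • x := by
    intro h1
    exact H.smul_notMem n hx (h1 ▸ (lastA_mem w p.1 h.2.1 h.2.2.2.2).1)
  obtain ⟨v, hv, hs⟩ := H.sh_forward hC hb w p.1 h.2.2.2.2 hl
  have h1 := sh_dle hC (sh_refl ha) hs h.2.1 hap.symm hv
  rw [← mul_smul] at h1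
  refine ⟨h1, ?_⟩
  rw [prW_cons, mul_assoc, mul_smul]
  refine H.spin' h.2.1.1 ?_ h1 hap h.2.2.1 h.2.2.2.1
  intro h2
  exact H.smul_notMem _ hx (h2 ▸ h.2.1.1)

lemma far_succ (hx : x ∉ C) {k : ℕ} (hC : Claim X C R x θ k) {c : V} (hc : c ∈ Ak X C R x k) :
    Far X C R x (k + 1) c k := by
  intro g hg
  obtain ⟨w, n, hw, hn, rfl⟩ := H.normal_form hx hg
  clear hg
  induction w generalizing c with
  | nil => rw [prW_nil, one_mul]; exact hc.2.2 n hn
  | cons p w ih =>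
    have h1 := ih hw.2.1 (RF_base hx w hw.2.2.2.2)
    have h2 : X.d ((prW (p :: w) * n) • x) p.1 = X.d ((prW w * n) • x) p.1 := by
      rw [prW_cons, mul_assoc, mul_smul]
      conv_lhs => rw [← H.fix _ hw.2.1.1 _ hw.2.2.1]
      exact H.iso _ _ _
    by_cases h3 : c = p.1
    · rw [h3, h2]; exact h1
    · have h4 := (H.pivot hx hC hw hn hc.2.1 h3).2
      have h5 := H.bgi.btw hw.2.1.1 (by have := H.big; omega) h4
      unfold GS.Btw at h5
      have s1 := X.symm ((prW (p :: w) * n) • x) c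
      have s2 := X.symm ((prW (p :: w) * n) • x) p.1
      omega

lemma claim_zero : Claim X C R x θ 0 := by
  have key : ∀ c ∈ C, ∀ a j, Far X C R x 0 c j → Near X C R x 0 a j → a ≠ c → X.Dle c a x θ := by
    rintro c hc a j hf ⟨n, hn, hd⟩ hac
    have h1 := hf 1 (one_mem _)
    rw [Nk_zero hn] at hd
    rw [one_smul] at h1 hd
    apply H.bgi c hc
    have := d_pos (X := X) hac
    have := X.symm a x
    have := X.symm c x
    unfold GS.Btw; omega
  intro c hc a b j _ hf ha hb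
  by_cases hac : a = c
  · rw [hac]; exact dle_apex_left _ _ _
  by_cases hbc : b = c
  · rw [hbc]; exact (dle_apex_left _ _ _).symm
  by_cases hxc : x = c
  · have h1 := hf 1 (one_mem _)
    obtain ⟨n, hn, hd⟩ := ha
    rw [Nk_zero hn] at hd
    rw [one_smul, hxc] at h1 hd
    rw [X.d_self] at h1
    exact absurd (X.eq_of_d c a (by omega)).symm hac
  exact ((key c hc a j hf ha hac).trans hxc (key c hc b j hf hb hbc).symm).mono (by omega)

lemma claim_succ (hx : x ∉ C) {k : ℕ} (hC : Claim X C R x θ k) : Claim X C R x θ (k + 1) := by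
  have base : ∀ c ∈ C, ∀ a b j, k + 1 ≤ j → Far X C R x (k + 1) c j → Near X C R x k a j →
      Near X C R x k b j → X.Dle c a b (2 * θ) := fun c hc a b j hj hf ha hb =>
    hC c hc a b j (by omega) (fun n hn => hf n (Nk_mono (by omega) hn)) ha hb
  have key : ∀ w, RF X C R x k x w → ∀ n ∈ Nk X C R x k, ∀ c ∈ C, ∀ a b j, k + 1 ≤ j →
      Far X C R x (k + 1) c j → Near X C R x k a j → X.d ((prW w * n) • x) b ≤ j →
      X.Dle c a b (2 * θ) := by
    intro w
    induction w with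
    | nil =>
      intro _ n hn c hc a b j hj hf ha hb
      rw [prW_nil, one_mul] at hb
      exact base c hc a b j hj hf ha ⟨n, hn, hb⟩
    | cons p w ih =>
      intro hw n hn c hc a b j hj hf ha hb
      have ih' := ih (RF_base hx w hw.2.2.2.2) n hn
      have hpC := hw.2.1.1
      have hr := hw.2.2.1
      have hfix := H.fix _ hpC _ hr
      have hrN : p.2⁻¹ ∈ Nk X C R x (k + 1) := inv_mem (H.mem_Nk_succ hw.2.1 hr)
      have hb' : X.d ((prW w * n) • x) (p.2⁻¹ • b) ≤ j := by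
        rw [← H.iso p.2, smul_inv_smul, ← mul_smul, ← mul_assoc, ← prW_cons]
        exact hb
      obtain ⟨m, hm, hma⟩ := ha
      obtain ⟨m', hm', hm'd⟩ := hw.2.1.2.1
      by_cases h1 : X.Btw (m • x) p.1 a
      · rw [← H.iso.dle_iff p.2⁻¹]
        refine ih' _ (H.smul_mem _ _ hc) _ _ j hj (H.far_smul hrN hf) ⟨m, hm, ?_⟩ hb'
        have h2 : X.d p.1 (p.2⁻¹ • a) = X.d p.1 a := by
          rw [← H.iso p.2, smul_inv_smul, hfix]
        have := X.tri (m • x) p.1 (p.2⁻¹ • a)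
        unfold GS.Btw at h1
        omega
      have hgN : prW (p :: w) * n ∈ Nk X C R x (k + 1) :=
        mul_mem (H.prW_mem _ _ hw) (Nk_mono (by omega) hn)
      by_cases h2 : X.Btw ((prW (p :: w) * n) • x) p.1 b
      · refine base c hc a b j hj hf ⟨m, hm, hma⟩ ⟨m', hm', ?_⟩
        have h3 := H.far_succ hx hC hw.2.1 _ hgN
        have := X.tri (m' • x) p.1 b
        unfold GS.Btw at h2
        omega
      have hmp : m • x ≠ p.1 := fun h => H.smul_notMem m hx (h ▸ hpC)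
      have h3 := (H.pivot hx hC hw hn ⟨m, hm, by rw [X.d_self]; omega⟩ hmp).2
      have hap : a ≠ p.1 := by rintro rfl; exact h1 (btw_right _ _)
      have hbp : b ≠ p.1 := by rintro rfl; exact h2 (btw_right _ _)
      have h4 : ¬ X.Dle p.1 a b (2 * θ) := by
        intro h5
        apply h3
        have h6 := ((H.bgi _ hpC _ _ h1).trans hap h5).trans hbp (H.bgi _ hpC _ _ h2).symm
        exact h6.mono (by have := H.big; omega)
      have hcp : c ≠ p.1 := by
        rintro rfl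
        have := hf m' (Nk_mono (by omega) hm')
        omega
      by_contra h5
      have h6 := H.bgi.btw hc (by omega) h5
      apply h5
      rcases H.bgi.all hpC h4 h6 with h7 | h7
      · have h8 := base c hc a p.1 j hj hf ⟨m, hm, hma⟩ ⟨m', hm', by omega⟩
        exact fun u v hu hv => h8 u v hu (H.bgi.pr hpC h4 h7 hcp hv)
      · have h8 : X.Dle c p.1 b (2 * θ) := by
          rw [← H.iso.dle_iff p.2⁻¹]
          refine ih' _ (H.smul_mem _ _ hc) _ _ j hj (H.far_smul hrN hf) ⟨m', hm', ?_⟩ hb'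
          rw [H.fix _ hpC _ (inv_mem hr)]
          omega
        exact fun u v hu hv => h8 u v
          (H.bgi.pr hpC (fun h => h4 h.symm) h7.symm hcp hu) hv
  rintro c hc a b j hj hf ⟨na, hna, ha⟩ ⟨nb, hnb, hb⟩
  obtain ⟨w, n, hw, hn, he⟩ := H.normal_form hx (mul_mem (inv_mem hna) hnb)
  rw [← H.iso.dle_iff na⁻¹]
  refine key w hw n hn _ (H.smul_mem _ _ hc) _ _ j hj (H.far_smul (inv_mem hna) hf)
    ⟨1, one_mem _, ?_⟩ ?_
  · rw [one_smul, ← H.iso na, smul_inv_smul]; exact ha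
  · rw [← he, mul_smul, H.iso]; exact hb

theorem claim (hx : x ∉ C) (k : ℕ) : Claim X C R x θ k := by
  induction k with
  | zero => exact H.claim_zero
  | succ k ih => exact H.claim_succ hx ih

/-- The windmill induction principle (Greendlinger's lemma with a terminating reduction). -/
theorem induction (hx : x ∉ C) (P : G → Prop) (h1 : P 1)
    (hstep : ∀ c ∈ C, ∀ r ∈ R c, ∀ g ∈ rotSub C R, r ≠ 1 → X.Dle c x (g • x) (2 * θ) →
      ¬ X.Dle c x ((r * g) • x) L → P g → P (r * g)) :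
    ∀ g ∈ rotSub C R, P g := by
  have key : ∀ k, ∀ g ∈ Nk X C R x k, P g := by
    intro k
    induction k with
    | zero => intro g hg; rw [Nk_zero hg]; exact h1
    | succ k ih =>
      intro g hg
      obtain ⟨w, n, hw, hn, rfl⟩ := H.normal_form hx hg
      clear hg
      induction w with
      | nil => rw [prW_nil, one_mul]; exact ih n hn
      | cons p w ih2 =>
        have hw' := RF_base hx w hw.2.2.2.2
        have h2 := H.pivot hx (H.claim hx k) hw hn (a := x)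
          ⟨1, one_mem _, by rw [one_smul, X.d_self]; omega⟩ hw.1
        rw [prW_cons, mul_assoc] at h2 ⊢
        exact hstep p.1 hw.2.1.1 p.2 hw.2.2.1 _
          (Nk_le (k + 1) (mul_mem (H.prW_mem w x hw') (Nk_mono (by omega) hn))) hw.2.2.2.1
          h2.1 h2.2 (ih2 hw')
  intro g hg
  obtain ⟨k, hk⟩ := exists_Nk X x hg
  exact key k g hk

/-- Greendlinger's lemma -/
theorem greendlinger (hx : x ∉ C) {g : G} (hg : g ∈ rotSub C R) (hg1 : g ≠ 1) :
    ∃ c ∈ C, ∃ r ∈ R c, r ≠ 1 ∧ X.Dle c x (r⁻¹ • g • x) (2 * θ) ∧ ¬ X.Dle c x (g • x) L := by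
  revert hg1
  refine H.induction hx (fun g => g ≠ 1 → ∃ c ∈ C, ∃ r ∈ R c, r ≠ 1 ∧
    X.Dle c x (r⁻¹ • g • x) (2 * θ) ∧ ¬ X.Dle c x (g • x) L) (fun h => absurd rfl h) ?_ g hg
  intro c hc r hr g _ hr1 h1 h2 _ _
  exact ⟨c, hc, r, hr, hr1, by rw [mul_smul, inv_smul_smul]; exact h1, h2⟩

end Rot

end Pool.Agent.H668Z.SC
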